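import Pool.Agent.L5helper65.HK.Loc

/-!
# Hilbert-Samuel multiplicity, Hilbert-Kunz multiplicity, F-signature, Gorenstein rings
-/

set_option autoImplicit false

namespace Pool.Agent.L5helper65.HK

open IsLocalRing Filter Topology

/-- `e` is the Hilbert-Samuel multiplicity of the local ring `A` of dimension `d`:
the limit of `d! ℓ(A/m^n) / n^d` -/
def IsMultiplicity (A : Type) [CommRing A] [IsLocalRing A] (d : ℕ) (e : ℝ) : Prop :=
  Tendsto (fun n : ℕ => (d.factorial : ℝ) *
    ((Module.length A (A ⧸ maximalIdeal A ^ n)).toNat : ℝ) / (n : ℝ) ^ d) atTop (𝓝 e)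

/-- `h` is the Hilbert-Kunz multiplicity of the local ring `A` of characteristic `p` and
dimension `d`: the limit of `ℓ(A/m^[q]) / q^d`, `q = p^e` -/
def IsHilbertKunz (A : Type) [CommRing A] [IsLocalRing A] (p d : ℕ) (h : ℝ) : Prop :=
  Tendsto (fun e : ℕ =>
    ((Module.length A (A ⧸ frobPow (maximalIdeal A) (p ^ e))).toNat : ℝ) /
      ((p : ℝ) ^ e) ^ d) atTop (𝓝 h)

/-- `F^e_* A` -/
def Push (A : Type) (_p _e : ℕ) : Type := A

instance (A : Type) [CommRing A] (p e : ℕ) : AddCommGroup (Push A p e) :=
  inferInstanceAs (AddCommGroup A)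

/-- `A` acts on `F^e_* A = A` by `a • b = a^(p^e) b` -/
noncomputable instance (A : Type) [CommRing A] (p e : ℕ) [Fact p.Prime] [CharP A p] :
    Module A (Push A p e) :=
  letI : Module A A := Semiring.toModule
  Module.compHom A (iterateFrobenius A p e)

/-- the largest rank of a free direct summand of `M` (the largest `n` such that `M` has a
surjective homomorphism to `A^n`) -/
noncomputable def freeRank (A M : Type) [CommRing A] [AddCommGroup M] [Module A M] : ℕ :=
  sSup {n : ℕ | ∃ f : M →ₗ[A] (Fin n → A), Function.Surjective f}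

/-- `s` is the F-signature of the local ring `A` of characteristic `p` and dimension `d`: the limit
of `a_e / (p^(e d) [k : k^p]^e)`, `a_e` the rank of the largest free summand of `F^e_* A` -/
def IsFSignature (A : Type) [CommRing A] [IsLocalRing A] (p d : ℕ) [Fact p.Prime] [CharP A p]
    (s : ℝ) : Prop :=
  Tendsto (fun e : ℕ => (freeRank A (Push A p e) : ℝ) / ((p : ℝ) ^ (e * d) *
    (Module.finrank (Subfield.closure (Set.range fun a : ResidueField A => a ^ p))
      (ResidueField A) : ℝ) ^ e)) atTop (𝓝 s)

/-- the local ring `A` is Gorenstein: there is a regular sequence which generates an ideal that is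
primary to the maximal ideal, and the socle of the quotient is generated by one nonzero element -/
def IsGorenstein (A : Type) [CommRing A] [IsLocalRing A] : Prop :=
  ∃ rs : List A, RingTheory.Sequence.IsRegular A rs ∧
    (∃ n, maximalIdeal A ^ n ≤ Ideal.ofList rs) ∧
    ∃ s ∉ Ideal.ofList rs, ∀ a : A, (∀ t ∈ maximalIdeal A, t * a ∈ Ideal.ofList rs) ↔
      a ∈ Ideal.ofList rs ⊔ Ideal.span {s}

end Pool.Agent.L5helper65.HK
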