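import Pool.Agent.L5helper65.HK.Norm

/-!
# The derivations of `k⟦x⟧⟦y⟧` and the example
-/

set_option autoImplicit false

namespace Pool.Agent.L5helper65.HK

open IsLocalRing PowerSeries

section der

/-- the derivations of a ring -/
abbrev Dz (A : Type) [CommRing A] : Type := Derivation ℤ A A

/-- a derivation from its properties -/
noncomputable def mkD (A : Type) [CommRing A] (D : A → A) (h1 : ∀ a b, D (a + b) = D a + D b)
    (h2 : ∀ a b, D (a * b) = a * D b + b * D a) : Dz A :=
  Derivation.mk' (AddMonoidHom.mk' D h1).toIntLinearMap h2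

theorem mkD_apply (A : Type) [CommRing A] (D : A → A) (h1 : ∀ a b, D (a + b) = D a + D b)
    (h2 : ∀ a b, D (a * b) = a * D b + b * D a) (a : A) : mkD A D h1 h2 a = D a := rfl

variable {S : Type} [CommRing S]

/-- the derivative with respect to the variable -/
noncomputable def dOut (S : Type) [CommRing S] : Dz S⟦X⟧ :=
  mkD _ (fun f => derivative S f) (fun a b => map_add _ a b) (fun a b => (derivative S).leibniz a b)

theorem dOut_X : dOut S X = 1 := derivative_X

theorem dOut_C (s : S) : dOut S (C s) = 0 := derivative_C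

/-- the coefficientwise derivation -/
noncomputable def dIn (d : Dz S) : Dz S⟦X⟧ :=
  mkD _ (fun f : S⟦X⟧ => mk fun n => d (coeff n f)) (by
    intro a b
    ext n
    simp) (by
    intro a b
    ext n
    rw [map_add, coeff_mk, coeff_mul, mul_comm b, coeff_mul, coeff_mul, map_sum,
      ← Finset.sum_add_distrib]
    refine Finset.sum_congr rfl fun q _ => ?_
    rw [d.leibniz, coeff_mk, coeff_mk, smul_eq_mul, smul_eq_mul]
    ring)

theorem dIn_coeff (d : Dz S) (f : S⟦X⟧) (n : ℕ) :
    coeff n (dIn d f) = d (coeff n f) := by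
  rw [dIn, mkD_apply, coeff_mk]

theorem dIn_C (d : Dz S) (s : S) : dIn d (C s) = C (d s) := by
  ext n
  rw [dIn_coeff, coeff_C, coeff_C]
  split_ifs
  · rfl
  · rw [map_zero]

theorem dIn_X (d : Dz S) : dIn d X = 0 := by
  ext n
  rw [dIn_coeff, coeff_X, map_zero]
  split_ifs
  · exact d.map_one_eq_zero
  · rw [map_zero]

theorem dual (k : Type) [Field k] : Dual (R := k⟦X⟧⟦X⟧) (C X) X (dIn (dOut k)) (dOut k⟦X⟧) where
  xx := by rw [dIn_C, dOut_X, map_one]
  xy := dIn_X _
  yx := dOut_C _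
  yy := dOut_X

end der

section ex

variable (p : ℕ) [hp : Fact p.Prime] (k : Type) [Field k] [CharP k p]

/-- the example `k⟦x⟧⟦y⟧[z]/(z^p - x^(p+1) - y^(p+1))` -/
abbrev Ex : Type := AA (R := k⟦X⟧⟦X⟧) p (C X) X

theorem Ex_ffinite (hk : (frobenius k p).Finite) : (frobenius (Ex p k) p).Finite := by
  have h1 : (frobenius k⟦X⟧⟦X⟧ p).Finite := ps_ffinite p (ps_ffinite p hk)
  have h2 : (algebraMap k⟦X⟧⟦X⟧ (Ex p k)).Finite := RingHom.finite_algebraMap.2 inferInstance
  have h3 : (frobenius (Ex p k) p).comp (algebraMap k⟦X⟧⟦X⟧ (Ex p k)) =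
      (algebraMap k⟦X⟧⟦X⟧ (Ex p k)).comp (frobenius k⟦X⟧⟦X⟧ p) := by
    ext r
    simp [frobenius_def]
  apply RingHom.Finite.of_comp_finite (f := algebraMap k⟦X⟧⟦X⟧ (Ex p k))
  rw [h3]
  exact h2.comp h1

instance : IsDomain (Ex p k) := AA_domain p ps_reg2 (dual k)

instance : IsLocalRing (Ex p k) := AA_local p ps_reg2

instance : IsNoetherianRing (Ex p k) := IsNoetherianRing.of_finite k⟦X⟧⟦X⟧ _

instance : IsIntegrallyClosed (Ex p k) := AA_normal p ps_reg2 (dual k)

end ex

end Pool.Agent.L5helper65.HK
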