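import Pool.Agent.L5helper65.HK.Mult

/-!
# `R[z]/(z^p - x^(p+1) - y^(p+1))` is Gorenstein of dimension 2 with F-signature 0
-/

set_option autoImplicit false

namespace Pool.Agent.L5helper65.HK

open IsLocalRing Filter Topology RingTheory.Sequence
open scoped Pointwise

/-- an element of `F^e_* A` as an element of `A` -/
def Push.out {A : Type} {p e : ℕ} (b : Push A p e) : A := b

/-- an element of `A` as an element of `F^e_* A` -/
def Push.of {A : Type} (p e : ℕ) (b : A) : Push A p e := b

theorem push_smul {A : Type} [CommRing A] {p : ℕ} [Fact p.Prime] [CharP A p] {e : ℕ} (a : A)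
    (b : Push A p e) : a • b = Push.of p e (a ^ p ^ e * b.out) := by
  change (iterateFrobenius A p e a) * b.out = _
  rw [iterateFrobenius_def]
  rfl

section gor

variable {R : Type} [CommRing R] [IsDomain R] [IsLocalRing R] (p : ℕ) [hp : Fact p.Prime]
  [CharP R p] {x y : R} (h : Reg2 R x y)

omit [IsDomain R] [IsLocalRing R] hp [CharP R p] in
theorem ofList_eq : Ideal.ofList [algebraMap R (AA p x y) y, algebraMap R (AA p x y) x] =
    (Ideal.span {x, y}).map (algebraMap R (AA p x y)) := by
  rw [map_J, Ideal.ofList_cons, Ideal.ofList_singleton, Ideal.span_insert, sup_comm]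

include h

omit [IsDomain R] [CharP R p] in
theorem zz_not_mem : zz p x y ∉ (Ideal.span {x, y}).map (algebraMap R (AA p x y)) := by
  intro h1
  rw [mem_map_iff] at h1
  have h2 := h1 ⟨1, hp.out.one_lt⟩
  have h3 := repr_pow p x y 1 hp.out.one_lt 1 ⟨1, hp.out.one_lt⟩
  rw [map_one, one_mul, pow_one, if_pos rfl] at h3
  rw [h3, ← h.max] at h2
  exact (Ideal.ne_top_iff_one _).1 (maximalIdeal.isMaximal R).ne_top h2

omit [IsDomain R] in
theorem zz_mem_max [IsLocalRing (AA p x y)] : zz p x y ∈ maximalIdeal (AA p x y) :=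
  (mem_max p h _).2 (res_zz p h)

/-- `m F^e_* A = (x, y) F^e_* A`, in terms of elements -/
theorem smul_push [IsLocalRing (AA p x y)] (e : ℕ) (t : AA p x y)
    (ht : t ∈ maximalIdeal (AA p x y)) (b : Push (AA p x y) p (e + 1)) :
    ∃ u v : Push (AA p x y) p (e + 1),
      t • b = algebraMap R (AA p x y) x • u + algebraMap R (AA p x y) y • v := by
  have h1 : t ^ p ^ (e + 1) ∈ frobPow (maximalIdeal (AA p x y)) (p ^ (e + 1)) :=
    Ideal.subset_span ⟨t, ht, rfl⟩
  rw [frob_eq p h, Ideal.map_span, Set.image_pair, mem_pair] at h1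
  obtain ⟨u, v, huv⟩ := h1
  refine ⟨Push.of _ _ (u * b.out), Push.of _ _ (v * b.out), ?_⟩
  rw [push_smul, push_smul, push_smul]
  change t ^ p ^ (e + 1) * b.out =
    algebraMap R (AA p x y) x ^ p ^ (e + 1) * (u * b.out) +
      algebraMap R (AA p x y) y ^ p ^ (e + 1) * (v * b.out)
  rw [← huv, map_pow, map_pow]
  ring

theorem no_surj [IsLocalRing (AA p x y)] (e : ℕ)
    (f : Push (AA p x y) p (e + 1) →ₗ[AA p x y] AA p x y) : ¬ Function.Surjective f := by
  intro hf
  obtain ⟨b, hb⟩ := hf 1
  obtain ⟨u, v, huv⟩ := smul_push p h e _ (zz_mem_max p h) b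
  have h1 : zz p x y = algebraMap R (AA p x y) x * f u + algebraMap R (AA p x y) y * f v := by
    have h2 : f (zz p x y • b) = zz p x y := by rw [map_smul, hb, smul_eq_mul, mul_one]
    rw [← h2, huv, map_add, map_smul, map_smul, smul_eq_mul, smul_eq_mul]
  apply zz_not_mem p h
  rw [h1]
  exact add_mem (Ideal.mul_mem_right _ _ (Ideal.mem_map_of_mem _ (mem_l x y)))
    (Ideal.mul_mem_right _ _ (Ideal.mem_map_of_mem _ (mem_r x y)))

theorem freeRank_eq [IsLocalRing (AA p x y)] (e : ℕ) :
    freeRank (AA p x y) (Push (AA p x y) p (e + 1)) = 0 := by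
  have h1 : {n : ℕ | ∃ f : Push (AA p x y) p (e + 1) →ₗ[AA p x y] (Fin n → AA p x y),
      Function.Surjective f} = {0} := by
    ext n
    rw [Set.mem_ofPred_eq, Set.mem_singleton_iff]
    constructor
    · rintro ⟨f, hf⟩
      by_contra hn
      obtain ⟨k, rfl⟩ := Nat.exists_eq_succ_of_ne_zero hn
      apply no_surj p h e ((LinearMap.proj (0 : Fin (k + 1))).comp f)
      intro a
      obtain ⟨b, hb⟩ := hf (fun _ => a)
      exact ⟨b, by rw [LinearMap.comp_apply, hb]; rfl⟩
    · rintro rfl
      exact ⟨0, fun v => ⟨0, Subsingleton.elim _ _⟩⟩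
  rw [freeRank, h1, csSup_singleton]

/-- the F-signature is `0` -/
theorem sig [IsLocalRing (AA p x y)] : IsFSignature (AA p x y) p 2 0 := by
  refine tendsto_nhds_of_eventually_eq ?_
  filter_upwards [eventually_ge_atTop 1] with e he
  obtain ⟨k, rfl⟩ := Nat.exists_eq_add_of_le' he
  rw [freeRank_eq p h, Nat.cast_zero, zero_div]

/-- `y, x` is a regular sequence -/
theorem regular [IsLocalRing (AA p x y)] : IsRegular (AA p x y)
    [algebraMap R (AA p x y) y, algebraMap R (AA p x y) x] := by
  have hx : algebraMap R (AA p x y) x ∈ maximalIdeal (AA p x y) :=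
    (mem_max p h _).2 (by rw [res_alg, residue_eq_zero_iff]; exact x_mem h)
  have hy : algebraMap R (AA p x y) y ∈ maximalIdeal (AA p x y) :=
    (mem_max p h _).2 (by rw [res_alg, residue_eq_zero_iff]; exact y_mem h)
  rw [IsLocalRing.isRegular_iff_isWeaklyRegular_of_subset_maximalIdeal]
  swap
  · intro r hr
    rw [List.mem_cons, List.mem_singleton] at hr
    rcases hr with rfl | rfl
    · exact hy
    · exact hx
  rw [isWeaklyRegular_cons_iff, isWeaklyRegular_singleton_iff]
  constructor
  · rw [isSMulRegular_iff_right_eq_zero_of_smul]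
    intro a ha
    rw [smul_eq_mul, ← Algebra.smul_def] at ha
    exact (smul_eq_zero.1 ha).resolve_left h.prime.ne_zero
  · rw [isSMulRegular_quotient_iff_mem_of_smul_mem]
    intro a ha
    have key : ∀ c : AA p x y, c ∈ (algebraMap R (AA p x y) y) • (⊤ : Submodule (AA p x y) (AA p x y))
        ↔ c ∈ (Ideal.span {y}).map (algebraMap R (AA p x y)) := by
      intro c
      rw [Submodule.mem_smul_pointwise_iff_exists, Ideal.map_span, Set.image_singleton,
        Ideal.mem_span_singleton']
      constructor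
      · rintro ⟨b, _, rfl⟩
        exact ⟨b, mul_comm _ _⟩
      · rintro ⟨b, rfl⟩
        exact ⟨b, trivial, mul_comm _ _⟩
    rw [key, mem_map_iff] at ha ⊢
    intro i
    have h1 := ha i
    rw [smul_eq_mul, ← Algebra.smul_def, map_smul, Finsupp.smul_apply, smul_eq_mul,
      Ideal.mem_span_singleton] at h1
    rw [Ideal.mem_span_singleton]
    exact h.dvd (a := 1) (by rw [pow_one]; exact h1)

omit [IsDomain R] hp [CharP R p] in
theorem pow_mem_N (n : ℕ) (hn : p ≤ n) :
    zz p x y ^ n ∈ (Ideal.span {x, y}).map (algebraMap R (AA p x y)) := by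
  obtain ⟨k, rfl⟩ := Nat.exists_eq_add_of_le hn
  rw [pow_add, zz_pow]
  refine Ideal.mul_mem_right _ _ (Ideal.mem_map_of_mem _ ?_)
  rw [← h.max]
  exact gg_mem p h

theorem socle [IsLocalRing (AA p x y)] (a : AA p x y) :
    (∀ t ∈ maximalIdeal (AA p x y),
      t * a ∈ (Ideal.span {x, y}).map (algebraMap R (AA p x y))) ↔
    a ∈ (Ideal.span {x, y}).map (algebraMap R (AA p x y)) ⊔
      Ideal.span {zz p x y ^ (p - 1)} := by
  have hp1 : 0 < p := hp.out.pos
  constructor
  · intro ha
    have hz := ha _ (zz_mem_max p h)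
    -- the coefficients of `z^i`, `i < p - 1`, are in the maximal ideal
    have hc : ∀ n : ℕ, ∀ i : Fin p, (i : ℕ) < n → (i : ℕ) < p - 1 →
        (BB p x y).repr a i ∈ Ideal.span {x, y} := by
      intro n
      induction n with
      | zero => intro i hi; omega
      | succ n ih =>
        intro i hi hi1
        by_cases hin : (i : ℕ) < n
        · exact ih i hin hi1
        have hin' : (i : ℕ) = n := by omega
        have h1 : zz p x y ^ (p - 1 - n) * a ∈
            (Ideal.span {x, y}).map (algebraMap R (AA p x y)) := by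
          obtain ⟨k, hk⟩ : ∃ k, p - 1 - n = k + 1 := ⟨p - 1 - n - 1, by omega⟩
          rw [hk, pow_succ, mul_assoc]
          exact Ideal.mul_mem_left _ _ hz
        have h2 : zz p x y ^ (p - 1 - n) * a = ∑ j : Fin p, algebraMap R (AA p x y)
            ((BB p x y).repr a j) * zz p x y ^ ((j : ℕ) + (p - 1 - n)) := by
          conv_lhs => rw [sum_rep p x y a]
          rw [Finset.mul_sum]
          refine Finset.sum_congr rfl fun j _ => ?_
          rw [pow_add]
          ring
        rw [h2, ← Finset.add_sum_erase _ _ (Finset.mem_univ i)] at h1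
        have h3 : ∑ j ∈ Finset.univ.erase i, algebraMap R (AA p x y)
            ((BB p x y).repr a j) * zz p x y ^ ((j : ℕ) + (p - 1 - n)) ∈
            (Ideal.span {x, y}).map (algebraMap R (AA p x y)) := by
          refine sum_mem fun j hj => ?_
          have hji : (j : ℕ) ≠ n := fun e => (Finset.mem_erase.1 hj).1 (Fin.ext (by omega))
          by_cases hjn : (j : ℕ) < n
          · exact Ideal.mul_mem_right _ _ (Ideal.mem_map_of_mem _ (ih j hjn (by omega)))
          · exact Ideal.mul_mem_left _ _ (pow_mem_N p h _ (by omega))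
        have h4 := (Ideal.add_mem_iff_left _ h3).1 h1
        rw [mem_map_iff] at h4
        have h5 := h4 ⟨p - 1, by omega⟩
        have h6 : (i : ℕ) + (p - 1 - n) = p - 1 := by omega
        rw [h6, repr_pow p x y (p - 1) (by omega), if_pos rfl] at h5
        exact h5
    rw [sum_rep p x y a]
    refine sum_mem fun i _ => ?_
    by_cases hi : (i : ℕ) < p - 1
    · exact Ideal.mem_sup_left (Ideal.mul_mem_right _ _
        (Ideal.mem_map_of_mem _ (hc ((i : ℕ) + 1) i (by omega) hi)))
    · have hi' : (i : ℕ) = p - 1 := by have := i.2; omega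
      rw [hi']
      exact Ideal.mem_sup_right (Ideal.mul_mem_left _ _ (Ideal.mem_span_singleton_self _))
  · intro ha t ht
    rw [Submodule.mem_sup] at ha
    obtain ⟨u, hu, v, hv, rfl⟩ := ha
    obtain ⟨c, rfl⟩ := Ideal.mem_span_singleton'.1 hv
    rw [mul_add]
    refine add_mem (Ideal.mul_mem_left _ _ hu) ?_
    rw [max_eq' p h, Submodule.mem_sup] at ht
    obtain ⟨t1, ht1, t2, ht2, rfl⟩ := ht
    obtain ⟨d, rfl⟩ := Ideal.mem_span_singleton'.1 ht2
    rw [add_mul]
    refine add_mem (Ideal.mul_mem_right _ _ ht1) ?_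
    have h1 : d * zz p x y * (c * zz p x y ^ (p - 1)) = d * c * zz p x y ^ (p - 1 + 1) := by
      rw [pow_succ]
      ring
    rw [h1]
    exact Ideal.mul_mem_left _ _ (pow_mem_N p h _ (by omega))

theorem gorenstein [IsLocalRing (AA p x y)] : IsGorenstein (AA p x y) := by
  refine ⟨_, regular p h, ?_, zz p x y ^ (p - 1), ?_, ?_⟩
  · refine ⟨1 + (p - 1), ?_⟩
    rw [ofList_eq]
    have h1 := max_pow_le p h 1
    rwa [pow_one] at h1
  · rw [ofList_eq, mem_map_iff]
    intro h1
    have h2 := h1 ⟨p - 1, by have := hp.out.pos; omega⟩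
    have h3 := repr_pow p x y (p - 1) (by have := hp.out.pos; omega) 1
      ⟨p - 1, by have := hp.out.pos; omega⟩
    rw [map_one, one_mul, if_pos rfl] at h3
    rw [h3, ← h.max] at h2
    exact (Ideal.ne_top_iff_one _).1 (maximalIdeal.isMaximal R).ne_top h2
  · intro a
    rw [ofList_eq]
    exact socle p h a

/-- the dimension is `2` -/
theorem dim [IsNoetherianRing R] [IsLocalRing (AA p x y)] : ringKrullDim (AA p x y) = 2 := by
  have hN : IsNoetherianRing (AA p x y) := IsNoetherianRing.of_finite R _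
  have h1 := ringKrullDim_add_length_eq_ringKrullDim_of_isRegular _ (regular p h)
  rw [← h1, ofList_eq]
  have h2 : Module.length (AA p x y)
      (AA p x y ⧸ (Ideal.span {x, y}).map (algebraMap R (AA p x y))) ≠ ⊤ := by
    have := len_J p h 1
    rw [pow_one] at this
    rw [this]
    exact ENat.natCast_ne_top _
  have h3 := (isFiniteLength_iff_isNoetherian_isArtinian.1 (Module.length_ne_top_iff.1 h2)).2
  have h4 : IsArtinianRing (AA p x y ⧸ (Ideal.span {x, y}).map (algebraMap R (AA p x y))) :=
    isArtinian_of_tower (AA p x y) h3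
  have h5 : Nontrivial (AA p x y ⧸ (Ideal.span {x, y}).map (algebraMap R (AA p x y))) := by
    rw [Ideal.Quotient.nontrivial_iff]
    intro e
    apply zz_not_mem p h
    rw [e]
    trivial
  have h6 : ringKrullDim (AA p x y ⧸ (Ideal.span {x, y}).map (algebraMap R (AA p x y))) = 0 :=
    ringKrullDimZero_iff_ringKrullDim_eq_zero.1 inferInstance
  rw [h6]
  rfl

end gor

end Pool.Agent.L5helper65.HK
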