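import Mathlib

/-!
# Lengths over a two-dimensional regular local ring
-/

set_option autoImplicit false

namespace Pool.Agent.L5helper65.HK

open IsLocalRing

section len

variable {R : Type} [CommRing R]

/-- `ℓ(R/I) = ℓ(R/(I:u)) + ℓ(R/(I+u))` -/
theorem len_colon (I J K : Ideal R) (u : R) (hJ : ∀ a, a ∈ J ↔ u * a ∈ I)
    (hK : K = I ⊔ Ideal.span {u}) :
    Module.length R (R ⧸ I) = Module.length R (R ⧸ J) + Module.length R (R ⧸ K) := by
  have h1 : J ≤ Submodule.comap (LinearMap.mulLeft R u) I := fun a ha => (hJ a).1 ha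
  have hIK : I ≤ K := by rw [hK]; exact le_sup_left
  have h2 : I ≤ Submodule.comap (LinearMap.id (R := R) (M := R)) K := fun a ha => hIK ha
  refine Module.length_eq_add_of_exact (Submodule.mapQ J I (LinearMap.mulLeft R u) h1)
    (Submodule.mapQ I K LinearMap.id h2) ?_ ?_ ?_
  · rw [← LinearMap.ker_eq_bot, eq_bot_iff]
    intro q hq
    obtain ⟨a, rfl⟩ := Submodule.Quotient.mk_surjective J q
    rw [LinearMap.mem_ker, Submodule.mapQ_apply, Submodule.Quotient.mk_eq_zero] at hq
    rw [Submodule.mem_bot, Submodule.Quotient.mk_eq_zero]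
    exact (hJ a).2 hq
  · intro q
    obtain ⟨a, rfl⟩ := Submodule.Quotient.mk_surjective K q
    exact ⟨Submodule.Quotient.mk a, by rw [Submodule.mapQ_apply]; rfl⟩
  · intro q
    obtain ⟨a, rfl⟩ := Submodule.Quotient.mk_surjective I q
    rw [Submodule.mapQ_apply, LinearMap.id_apply, Submodule.Quotient.mk_eq_zero, hK,
      Submodule.mem_sup, Set.mem_range]
    constructor
    · rintro ⟨b, hb, c, hc, rfl⟩
      obtain ⟨d, rfl⟩ := Ideal.mem_span_singleton'.1 hc
      refine ⟨Submodule.Quotient.mk d, ?_⟩
      rw [Submodule.mapQ_apply, Submodule.Quotient.eq, LinearMap.mulLeft_apply]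
      have : u * d - (b + d * u) = -b := by ring
      rw [this]
      exact neg_mem hb
    · rintro ⟨q, hq⟩
      obtain ⟨d, rfl⟩ := Submodule.Quotient.mk_surjective J q
      rw [Submodule.mapQ_apply, Submodule.Quotient.eq, LinearMap.mulLeft_apply] at hq
      refine ⟨a - u * d, ?_, u * d, Ideal.mem_span_singleton.2 (Dvd.intro d rfl), by ring⟩
      have : a - u * d = -(u * d - a) := by ring
      rw [this]
      exact neg_mem hq

theorem len_top (I : Ideal R) (h : I = ⊤) : Module.length R (R ⧸ I) = 0 := by
  rw [Module.length_eq_zero_iff]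
  exact Ideal.Quotient.subsingleton_iff.2 h

theorem len_max [IsLocalRing R] (I : Ideal R) (h : I = maximalIdeal R) :
    Module.length R (R ⧸ I) = 1 := by
  rw [Module.length_eq_one_iff, isSimpleModule_iff_isCoatom, h]
  exact (maximalIdeal.isMaximal R).out

end len

/-- `R` is a local domain with maximal ideal `(x, y)`, `y` is prime and does not divide `x` -/
structure Reg2 (R : Type) [CommRing R] [IsLocalRing R] (x y : R) : Prop where
  max : maximalIdeal R = Ideal.span {x, y}
  prime : Prime y
  ndvd : ¬ y ∣ x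

section reg

variable {R : Type} [CommRing R] [IsDomain R] [IsLocalRing R] {x y : R}

omit [IsDomain R] in
theorem Reg2.dvd (h : Reg2 R x y) {a : ℕ} {c : R} (hc : y ∣ x ^ a * c) : y ∣ c :=
  (h.prime.dvd_or_dvd hc).resolve_left fun h1 => h.ndvd (h.prime.dvd_of_dvd_pow h1)

omit [IsDomain R] [IsLocalRing R] in
theorem mem_l (u v : R) : u ∈ Ideal.span {u, v} := Ideal.subset_span (by simp)

omit [IsDomain R] [IsLocalRing R] in
theorem mem_r (u v : R) : v ∈ Ideal.span {u, v} := Ideal.subset_span (by simp)

omit [IsDomain R] [IsLocalRing R] in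
theorem mem_pair {u v w : R} : w ∈ Ideal.span {u, v} ↔ ∃ a b, a * u + b * v = w :=
  Ideal.mem_span_pair

omit [IsDomain R] in
/-- `ℓ(R/(x^a, y)) = a` -/
theorem Reg2.len1 (h : Reg2 R x y) (a : ℕ) :
    Module.length R (R ⧸ Ideal.span {x ^ a, y}) = a := by
  induction a with
  | zero =>
    rw [len_top]
    · rfl
    · rw [pow_zero, Ideal.eq_top_iff_one]
      exact Ideal.subset_span (Or.inl rfl)
  | succ a ih =>
    rw [len_colon _ (Ideal.span {x ^ a, y}) (Ideal.span {x, y}) x, ih, len_max _ h.max.symm]
    · push_cast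
      rfl
    · intro c
      rw [mem_pair, mem_pair]
      constructor
      · rintro ⟨p, q, rfl⟩
        exact ⟨p, x * q, by ring⟩
      · rintro ⟨p, q, e⟩
        have h1 : y ∣ x ^ 1 * (c - p * x ^ a) := by
          refine ⟨q, ?_⟩
          rw [pow_one, mul_sub, ← e]
          ring
        obtain ⟨r, hr⟩ := h.dvd h1
        exact ⟨p, r, by rw [eq_comm, ← sub_eq_iff_eq_add', hr]; ring⟩
    · apply le_antisymm
      · rw [Ideal.span_le]
        rintro w (rfl | rfl)
        · exact Ideal.mem_sup_right (Ideal.mem_span_singleton_self _)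
        · exact Ideal.mem_sup_left (Ideal.subset_span (Or.inr rfl))
      · rw [sup_le_iff, Ideal.span_le, Ideal.span_le]
        constructor
        · rintro w (rfl | rfl)
          · rw [pow_succ]
            exact Ideal.mul_mem_left _ _ (Ideal.subset_span (Or.inl rfl))
          · exact Ideal.subset_span (Or.inr rfl)
        · rintro w rfl
          exact Ideal.subset_span (Or.inl rfl)

/-- `ℓ(R/(x^a, y^b)) = ab` -/
theorem Reg2.len2 (h : Reg2 R x y) (a b : ℕ) :
    Module.length R (R ⧸ Ideal.span {x ^ a, y ^ b}) = (a * b : ℕ) := by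
  induction b with
  | zero =>
    rw [len_top]
    · simp
    · rw [pow_zero, Ideal.eq_top_iff_one]
      exact Ideal.subset_span (Or.inr rfl)
  | succ b ih =>
    rw [len_colon _ (Ideal.span {x ^ a, y ^ b}) (Ideal.span {x ^ a, y}) y, ih, h.len1]
    · push_cast
      ring
    · intro c
      rw [mem_pair, mem_pair]
      constructor
      · rintro ⟨p, q, rfl⟩
        exact ⟨y * p, q, by ring⟩
      · rintro ⟨p, q, e⟩
        have h1 : y ∣ x ^ a * p := by
          refine ⟨c - q * y ^ b, ?_⟩
          rw [mul_sub, ← e]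
          ring
        obtain ⟨r, rfl⟩ := h.dvd h1
        refine ⟨r, q, mul_left_cancel₀ h.prime.ne_zero ?_⟩
        rw [← e]
        ring
    · apply le_antisymm
      · rw [Ideal.span_le]
        rintro w (rfl | rfl)
        · exact Ideal.mem_sup_left (Ideal.subset_span (Or.inl rfl))
        · exact Ideal.mem_sup_right (Ideal.mem_span_singleton_self _)
      · rw [sup_le_iff, Ideal.span_le, Ideal.span_le]
        constructor
        · rintro w (rfl | rfl)
          · exact Ideal.subset_span (Or.inl rfl)
          · rw [pow_succ]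
            exact Ideal.mul_mem_left _ _ (Ideal.subset_span (Or.inr rfl))
        · rintro w rfl
          exact Ideal.subset_span (Or.inr rfl)

omit [IsDomain R] [IsLocalRing R] in
theorem mem_pair_mul (x y : R) (I : Ideal R) (c : R) :
    c ∈ Ideal.span {x, y} * I ↔ ∃ a ∈ I, ∃ b ∈ I, x * a + y * b = c := by
  rw [Ideal.span_insert, Ideal.sup_mul, Submodule.mem_sup]
  constructor
  · rintro ⟨u, hu, v, hv, rfl⟩
    obtain ⟨a, ha, rfl⟩ := Ideal.mem_span_singleton_mul.1 hu
    obtain ⟨b, hb, rfl⟩ := Ideal.mem_span_singleton_mul.1 hv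
    exact ⟨a, ha, b, hb, rfl⟩
  · rintro ⟨a, ha, b, hb, rfl⟩
    exact ⟨x * a, Ideal.mem_span_singleton_mul.2 ⟨a, ha, rfl⟩, y * b,
      Ideal.mem_span_singleton_mul.2 ⟨b, hb, rfl⟩, rfl⟩

omit [IsDomain R] [IsLocalRing R] in
/-- `(x,y)^(n+1) = (x^(n+1)) + y (x,y)^n` -/
theorem pair_pow (x y : R) (n : ℕ) (c : R) : c ∈ Ideal.span {x, y} ^ (n + 1) ↔
    ∃ p, ∃ q ∈ Ideal.span {x, y} ^ n, p * x ^ (n + 1) + y * q = c := by
  constructor
  · intro hc
    induction n generalizing c with
    | zero =>
      rw [zero_add, pow_one, mem_pair] at hc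
      obtain ⟨a, b, rfl⟩ := hc
      exact ⟨a, b, by rw [pow_zero, Ideal.one_eq_top]; trivial, by ring⟩
    | succ n ih =>
      rw [pow_succ', mem_pair_mul] at hc
      obtain ⟨a, ha, b, hb, rfl⟩ := hc
      obtain ⟨p, q, hq, rfl⟩ := ih a ha
      refine ⟨p, x * q + b, add_mem ?_ hb, by ring⟩
      rw [pow_succ']
      exact Ideal.mul_mem_mul (mem_l x y) hq
  · rintro ⟨p, q, hq, rfl⟩
    refine add_mem (Ideal.mul_mem_left _ _
      (Ideal.pow_mem_pow (mem_l x y) _)) ?_
    rw [pow_succ']
    exact Ideal.mul_mem_mul (mem_r x y) hq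

/-- `ℓ(R/(x,y)^n) = n(n+1)/2` -/
theorem Reg2.lenm (h : Reg2 R x y) (n : ℕ) :
    Module.length R (R ⧸ Ideal.span {x, y} ^ n) = (n * (n + 1) / 2 : ℕ) := by
  induction n with
  | zero =>
    rw [len_top]
    · simp
    · rw [pow_zero, Ideal.one_eq_top]
  | succ n ih =>
    rw [len_colon _ (Ideal.span {x, y} ^ n) (Ideal.span {x ^ (n + 1), y}) y, ih, h.len1]
    · have h1 : (n + 1) * (n + 1 + 1) / 2 = n * (n + 1) / 2 + (n + 1) := by
        have h2 : (n + 1) * (n + 1 + 1) = n * (n + 1) + (n + 1) * 2 := by ring
        rw [h2, Nat.add_mul_div_right _ _ (by norm_num)]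
      rw [h1]
      push_cast
      rfl
    · intro c
      constructor
      · intro hc
        rw [pow_succ']
        exact Ideal.mul_mem_mul (mem_r x y) hc
      · intro hc
        obtain ⟨p, q, hq, e⟩ := (pair_pow x y n _).1 hc
        have h1 : y ∣ x ^ (n + 1) * p := by
          refine ⟨c - q, ?_⟩
          rw [mul_sub, ← e]
          ring
        obtain ⟨r, rfl⟩ := h.dvd h1
        have h2 : c = r * x * x ^ n + q := by
          refine mul_left_cancel₀ h.prime.ne_zero ?_
          rw [← e]
          ring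
        rw [h2]
        exact add_mem (Ideal.mul_mem_left _ _
          (Ideal.pow_mem_pow (mem_l x y) _)) hq
    · apply le_antisymm
      · rw [Ideal.span_le]
        rintro w (rfl | rfl)
        · exact Ideal.mem_sup_left (Ideal.pow_mem_pow (mem_l x y) _)
        · exact Ideal.mem_sup_right (Ideal.mem_span_singleton_self _)
      · rw [sup_le_iff, Ideal.span_le]
        constructor
        · intro c hc
          obtain ⟨p, q, hq, rfl⟩ := (pair_pow x y n c).1 hc
          exact add_mem (Ideal.mul_mem_left _ _ (Ideal.subset_span (Or.inl rfl)))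
            (Ideal.mul_mem_right _ _ (Ideal.subset_span (Or.inr rfl)))
        · rintro w rfl
          exact Ideal.subset_span (Or.inr rfl)

end reg

section restr

universe u

theorem simple_restrict {R A : Type} [CommRing R] [CommRing A] [Algebra R A]
    (hs : ∀ I : Ideal A, I.IsMaximal → ∀ a : A, ∃ r : R, a - algebraMap R A r ∈ I)
    {Q : Type u} [AddCommGroup Q] [Module A Q] [Module R Q] [IsScalarTower R A Q]
    [IsSimpleModule A Q] : IsSimpleModule R Q := by
  have hnt : Nontrivial Q := IsSimpleModule.nontrivial A Q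
  rw [isSimpleModule_iff]
  refine ⟨fun S => ?_⟩
  by_cases hS : S = ⊥
  · exact Or.inl hS
  right
  obtain ⟨s, hsS, hs0⟩ := Submodule.exists_mem_ne_zero_of_ne_bot hS
  rw [eq_top_iff]
  intro q _
  have hsurj := IsSimpleModule.toSpanSingleton_surjective A hs0
  obtain ⟨a, ha⟩ := hsurj q
  have hmax : Ideal.IsMaximal (LinearMap.ker (LinearMap.toSpanSingleton A Q s) : Ideal A) := by
    refine ⟨?_⟩
    have h1 : IsSimpleModule A (A ⧸ (LinearMap.ker (LinearMap.toSpanSingleton A Q s))) :=
      IsSimpleModule.congr (LinearMap.quotKerEquivOfSurjective _ hsurj)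
    exact isSimpleModule_iff_isCoatom.1 h1
  obtain ⟨r, hr⟩ := hs _ hmax a
  rw [LinearMap.mem_ker, LinearMap.toSpanSingleton_apply, sub_smul, sub_eq_zero,
    algebraMap_smul A r s] at hr
  rw [← ha, LinearMap.toSpanSingleton_apply, hr]
  exact S.smul_mem r hsS

theorem len_restrict_fin {R A : Type} [CommRing R] [CommRing A] [Algebra R A]
    (hs : ∀ I : Ideal A, I.IsMaximal → ∀ a : A, ∃ r : R, a - algebraMap R A r ∈ I)
    {M : Type} [AddCommGroup M] [Module A M] (hf : IsFiniteLength A M) :
    ∀ [Module R M] [IsScalarTower R A M], Module.length R M = Module.length A M := by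
  induction hf with
  | of_subsingleton =>
    intro _ _
    rw [Module.length_eq_zero, Module.length_eq_zero]
  | @of_simple_quotient M _ _ N _ h ih =>
    intro _ _
    have e1 : Module.length A M = Module.length A N + Module.length A (M ⧸ N) :=
      Module.length_eq_add_of_exact N.subtype N.mkQ N.injective_subtype N.mkQ_surjective
        (LinearMap.exact_subtype_mkQ N)
    have e2 : Module.length R M = Module.length R N + Module.length R (M ⧸ N) :=
      Module.length_eq_add_of_exact (N.subtype.restrictScalars R) (N.mkQ.restrictScalars R)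
        N.injective_subtype N.mkQ_surjective (LinearMap.exact_subtype_mkQ N)
    have h1 : IsSimpleModule R (M ⧸ N) := simple_restrict hs
    have h2 : Module.length R (M ⧸ N) = 1 := Module.length_eq_one _ _
    have h3 : Module.length A (M ⧸ N) = 1 := Module.length_eq_one _ _
    rw [e1, e2, ih, h2, h3]

/-- length over a local ring and over a local subring with the same residue field -/
theorem len_restrict {R A : Type} [CommRing R] [CommRing A] [Algebra R A]
    (hs : ∀ I : Ideal A, I.IsMaximal → ∀ a : A, ∃ r : R, a - algebraMap R A r ∈ I)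
    {M : Type} [AddCommGroup M] [Module A M] [Module R M] [IsScalarTower R A M] :
    Module.length R M = Module.length A M := by
  by_cases hf : IsFiniteLength A M
  · exact len_restrict_fin hs hf
  · have h1 : Module.length A M = ⊤ := by
      by_contra h2
      exact hf ((Module.length_ne_top_iff).1 h2)
    have h2 := Submodule.length_le_length_restrictScalars R (⊤ : Submodule A M)
    rw [Module.length_top, Submodule.restrictScalars_top, Module.length_top] at h2
    rw [h1] at h2 ⊢
    exact top_le_iff.1 h2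

end restr

end Pool.Agent.L5helper65.HK
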