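import Pool.Agent.L5helper65.HK.Ring

/-!
# The local structure of `R[z]/(z^p - x^(p+1) - y^(p+1))`
-/

set_option autoImplicit false

namespace Pool.Agent.L5helper65.HK

open IsLocalRing Polynomial

section loc

variable {R : Type} [CommRing R] [IsDomain R] [IsLocalRing R] (p : ℕ) [hp : Fact p.Prime]
  [CharP R p] (x y : R)

instance AA_charP : CharP (AA p x y) p :=
  charP_of_injective_algebraMap (alg_inj p x y) p

omit [IsDomain R] [IsLocalRing R] in
/-- all `p`-th powers are in `R` -/
theorem pow_mem_R [Nontrivial R] (a : AA p x y) :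
    ∃ r : R, a ^ p = algebraMap R (AA p x y) r := by
  have hA : CharP (AA p x y) p := charP_of_injective_algebraMap (alg_inj p x y) p
  induction a using AdjoinRoot.induction_on with
  | ih f =>
    induction f using Polynomial.induction_on' with
    | add f g hf hg =>
      obtain ⟨r, hr⟩ := hf
      obtain ⟨s, hs⟩ := hg
      exact ⟨r + s, by rw [map_add, add_pow_char, hr, hs, map_add]⟩
    | monomial n r =>
      refine ⟨r ^ p * gg p x y ^ n, ?_⟩
      rw [← C_mul_X_pow_eq_monomial, map_mul, map_pow, AdjoinRoot.mk_X, AdjoinRoot.mk_C, mul_pow,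
        ← pow_mul, mul_comm n p, pow_mul]
      change _ * (zz p x y ^ p) ^ n = _
      rw [zz_pow, map_mul, map_pow, map_pow, AdjoinRoot.algebraMap_eq]

variable {x y} (h : Reg2 R x y)

include h

omit [IsDomain R] hp [CharP R p] in
theorem x_mem : x ∈ maximalIdeal R := by rw [h.max]; exact mem_l x y

omit [IsDomain R] hp [CharP R p] in
theorem y_mem : y ∈ maximalIdeal R := by rw [h.max]; exact mem_r x y

omit [IsDomain R] hp [CharP R p] in
theorem gg_mem : gg p x y ∈ maximalIdeal R :=
  add_mem (Ideal.pow_mem_of_mem _ (x_mem h) _ (by omega))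
    (Ideal.pow_mem_of_mem _ (y_mem h) _ (by omega))

omit [IsDomain R] [CharP R p] in
theorem eval_res : (ff p x y).eval₂ (residue R) 0 = 0 := by
  rw [ff, eval₂_sub, eval₂_X_pow, eval₂_C, zero_pow hp.out.ne_zero, zero_sub, neg_eq_zero,
    residue_eq_zero_iff]
  exact gg_mem p h

/-- the residue map -/
noncomputable def res : AA p x y →+* ResidueField R :=
  AdjoinRoot.lift (residue R) 0 (eval_res p h)

omit [IsDomain R] [CharP R p] in
theorem res_alg (r : R) : res p h (algebraMap R (AA p x y) r) = residue R r :=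
  AdjoinRoot.lift_of _

omit [IsDomain R] [CharP R p] in
theorem res_zz : res p h (zz p x y) = 0 := AdjoinRoot.lift_root _

omit [IsDomain R] in
theorem res_local : IsLocalHom (res p h) := by
  constructor
  intro a ha
  obtain ⟨r, hr⟩ := pow_mem_R p x y a
  have h1 : residue R r = res p h a ^ p := by rw [← map_pow, hr, res_alg]
  have h2 : IsUnit (residue R r) := by rw [h1]; exact ha.pow p
  have h3 : IsUnit r := isUnit_of_map_unit _ _ h2
  have h4 : IsUnit (a ^ p) := by rw [hr]; exact h3.map _
  exact (isUnit_pow_iff hp.out.ne_zero).1 h4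

omit [IsDomain R] in
theorem AA_local : IsLocalRing (AA p x y) := by
  have := res_local p h
  exact RingHom.domain_isLocalRing (res p h)

omit [IsDomain R] in
theorem mem_max [IsLocalRing (AA p x y)] (a : AA p x y) :
    a ∈ maximalIdeal (AA p x y) ↔ res p h a = 0 := by
  have h1 := res_local p h
  rw [mem_maximalIdeal, mem_nonunits_iff, not_iff_comm]
  constructor
  · intro h2
    exact isUnit_of_map_unit (res p h) a (isUnit_iff_ne_zero.2 h2)
  · intro h2
    exact (h2.map (res p h)).ne_zero

omit [IsDomain R] in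
theorem max_eq [IsLocalRing (AA p x y)] : maximalIdeal (AA p x y) =
    Ideal.span {algebraMap R (AA p x y) x, algebraMap R (AA p x y) y} ⊔
      Ideal.span {zz p x y} := by
  apply le_antisymm
  · intro a ha
    rw [mem_max p h] at ha
    obtain ⟨r, c, rfl⟩ := exists_rep p x y a
    rw [map_add, map_mul, res_zz, zero_mul, add_zero, res_alg, residue_eq_zero_iff, h.max,
      mem_pair] at ha
    obtain ⟨u, v, rfl⟩ := ha
    refine Submodule.add_mem_sup ?_ (Ideal.mul_mem_right _ _ (Ideal.mem_span_singleton_self _))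
    rw [mem_pair]
    exact ⟨algebraMap R _ u, algebraMap R _ v, by rw [map_add, map_mul, map_mul]⟩
  · rw [sup_le_iff, Ideal.span_le, Ideal.span_le]
    constructor
    · rintro a (rfl | rfl)
      · exact (mem_max p h _).2 (by rw [res_alg, residue_eq_zero_iff]; exact x_mem h)
      · exact (mem_max p h _).2 (by rw [res_alg, residue_eq_zero_iff]; exact y_mem h)
    · rintro a rfl
      exact (mem_max p h _).2 (res_zz p h)

omit [IsDomain R] in
theorem hs [IsLocalRing (AA p x y)] : ∀ I : Ideal (AA p x y), I.IsMaximal → ∀ a : AA p x y,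
    ∃ r : R, a - algebraMap R (AA p x y) r ∈ I := by
  intro I hI a
  rw [eq_maximalIdeal hI]
  obtain ⟨r, c, rfl⟩ := exists_rep p x y a
  refine ⟨r, ?_⟩
  rw [mem_max p h, add_sub_cancel_left, map_mul, res_zz, zero_mul]

omit [IsDomain R] in
/-- the length of `A/IA` over `A` -/
theorem len_A [IsLocalRing (AA p x y)] (I : Ideal R) : Module.length (AA p x y)
    (AA p x y ⧸ (I.map (algebraMap R (AA p x y)))) = p * Module.length R (R ⧸ I) := by
  rw [← len_map p x y I]
  exact (len_restrict (hs p h)).symm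

end loc

/-- the ideal generated by the `q`-th powers of the elements of `I` -/
def frobPow {A : Type} [CommRing A] (I : Ideal A) (q : ℕ) : Ideal A :=
  Ideal.span ((fun a => a ^ q) '' (I : Set A))

section frob

variable {R : Type} [CommRing R] [IsDomain R] [IsLocalRing R] (p : ℕ) [hp : Fact p.Prime]
  [CharP R p] {x y : R} (h : Reg2 R x y)

include h

omit [IsDomain R] in
/-- `m^[q] = (x^q, y^q)` for `q = p^e`, `e ≥ 1` -/
theorem frob_eq [IsLocalRing (AA p x y)] (e : ℕ) :
    frobPow (maximalIdeal (AA p x y)) (p ^ (e + 1)) =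
      (Ideal.span {x ^ p ^ (e + 1), y ^ p ^ (e + 1)}).map (algebraMap R (AA p x y)) := by
  have hA : CharP (AA p x y) p := charP_of_injective_algebraMap (alg_inj p x y) p
  have hx : ∀ m, p ^ (e + 1) ≤ m → algebraMap R (AA p x y) x ^ m ∈
      (Ideal.span {x ^ p ^ (e + 1), y ^ p ^ (e + 1)}).map (algebraMap R (AA p x y)) := by
    intro m hm
    obtain ⟨k, rfl⟩ := Nat.exists_eq_add_of_le' hm
    rw [← map_pow]
    refine Ideal.mem_map_of_mem _ ?_
    rw [pow_add x k]
    exact Ideal.mul_mem_left _ _ (mem_l _ _)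
  have hy : ∀ m, p ^ (e + 1) ≤ m → algebraMap R (AA p x y) y ^ m ∈
      (Ideal.span {x ^ p ^ (e + 1), y ^ p ^ (e + 1)}).map (algebraMap R (AA p x y)) := by
    intro m hm
    obtain ⟨k, rfl⟩ := Nat.exists_eq_add_of_le' hm
    rw [← map_pow]
    refine Ideal.mem_map_of_mem _ ?_
    rw [pow_add y k]
    exact Ideal.mul_mem_left _ _ (mem_r _ _)
  apply le_antisymm
  · rw [frobPow, Ideal.span_le]
    rintro _ ⟨t, ht, rfl⟩
    change t ^ p ^ (e + 1) ∈ _
    rw [SetLike.mem_coe, max_eq p h, Submodule.mem_sup] at ht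
    obtain ⟨u, hu, v, hv, rfl⟩ := ht
    obtain ⟨a, b, rfl⟩ := mem_pair.1 hu
    obtain ⟨c, rfl⟩ := Ideal.mem_span_singleton'.1 hv
    rw [add_pow_char_pow, add_pow_char_pow, mul_pow, mul_pow, mul_pow]
    refine add_mem (add_mem (Ideal.mul_mem_left _ _ (hx _ le_rfl))
      (Ideal.mul_mem_left _ _ (hy _ le_rfl))) (Ideal.mul_mem_left _ _ ?_)
    have h1 : zz p x y ^ p ^ (e + 1) = algebraMap R (AA p x y) x ^ ((p + 1) * p ^ e) +
        algebraMap R (AA p x y) y ^ ((p + 1) * p ^ e) := by
      rw [pow_succ', pow_mul, zz_pow, gg, map_add, map_pow, map_pow, add_pow_char_pow,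
        ← pow_mul, ← pow_mul]
    rw [h1]
    have h2 : p ^ (e + 1) ≤ (p + 1) * p ^ e := by
      rw [pow_succ', add_mul]
      exact Nat.le_add_right _ _
    exact add_mem (hx _ h2) (hy _ h2)
  · rw [Ideal.map_le_iff_le_comap, Ideal.span_le]
    rintro _ (rfl | rfl)
    · rw [SetLike.mem_coe, Ideal.mem_comap, map_pow]
      exact Ideal.subset_span ⟨_, (mem_max p h _).2 (by
        rw [res_alg, residue_eq_zero_iff]; exact x_mem h), rfl⟩
    · rw [SetLike.mem_coe, Ideal.mem_comap, map_pow]
      exact Ideal.subset_span ⟨_, (mem_max p h _).2 (by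
        rw [res_alg, residue_eq_zero_iff]; exact y_mem h), rfl⟩

/-- `ℓ(A/m^[q]) = p q^2` -/
theorem len_frob [IsLocalRing (AA p x y)] (e : ℕ) : Module.length (AA p x y)
    (AA p x y ⧸ frobPow (maximalIdeal (AA p x y)) (p ^ (e + 1))) =
      (p * (p ^ (e + 1) * p ^ (e + 1)) : ℕ) := by
  rw [frob_eq p h, len_A p h, h.len2]
  push_cast
  rfl

end frob

end Pool.Agent.L5helper65.HK
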