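import Pool.Agent.L5helper65.HK.Defs

/-!
# The multiplicities of `R[z]/(z^p - x^(p+1) - y^(p+1))`
-/

set_option autoImplicit false

namespace Pool.Agent.L5helper65.HK

open IsLocalRing Filter Topology

theorem sup_pow_le {A : Type} [CommRing A] (J K : Ideal A) (n : ℕ) :
    (J ⊔ K) ^ (n + 1) ≤ J * (J ⊔ K) ^ n ⊔ K ^ (n + 1) := by
  induction n with
  | zero => simp
  | succ n ih =>
    rw [pow_succ (J ⊔ K) (n + 1)]
    refine (Ideal.mul_mono_left ih).trans ?_
    rw [Ideal.sup_mul]
    refine sup_le ?_ ?_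
    · rw [mul_assoc, ← pow_succ]
      exact le_sup_left
    · rw [Ideal.mul_sup]
      refine sup_le ?_ ?_
      · rw [mul_comm]
        exact (Ideal.mul_mono_right (Ideal.pow_right_mono le_sup_right _)).trans le_sup_left
      · rw [← pow_succ]
        exact le_sup_right

theorem len_mono {A : Type} [CommRing A] {I J : Ideal A} (hIJ : I ≤ J) :
    Module.length A (A ⧸ J) ≤ Module.length A (A ⧸ I) := by
  refine Module.length_le_of_surjective (Submodule.factor hIJ) ?_
  intro q
  obtain ⟨a, rfl⟩ := Submodule.Quotient.mk_surjective J q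
  exact ⟨Submodule.Quotient.mk a, rfl⟩

section mult

variable {R : Type} [CommRing R] [IsDomain R] [IsLocalRing R] (p : ℕ) [hp : Fact p.Prime]
  [CharP R p] {x y : R} (h : Reg2 R x y)

include h

omit [IsDomain R] [IsLocalRing R] hp [CharP R p] h in
theorem map_J : (Ideal.span {x, y}).map (algebraMap R (AA p x y)) =
    Ideal.span {algebraMap R (AA p x y) x, algebraMap R (AA p x y) y} := by
  rw [Ideal.map_span, Set.image_pair]

omit [IsDomain R] in
theorem max_eq' [IsLocalRing (AA p x y)] : maximalIdeal (AA p x y) =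
    (Ideal.span {x, y}).map (algebraMap R (AA p x y)) ⊔ Ideal.span {zz p x y} := by
  rw [map_J p, max_eq p h]

omit [IsDomain R] in
theorem J_le [IsLocalRing (AA p x y)] :
    (Ideal.span {x, y}).map (algebraMap R (AA p x y)) ≤ maximalIdeal (AA p x y) := by
  rw [max_eq' p h]
  exact le_sup_left

omit [IsDomain R] in
/-- `(x, y)` is a reduction of the maximal ideal -/
theorem red [IsLocalRing (AA p x y)] : maximalIdeal (AA p x y) ^ p ≤
    (Ideal.span {x, y}).map (algebraMap R (AA p x y)) * maximalIdeal (AA p x y) ^ (p - 1) := by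
  obtain ⟨k, hk⟩ : ∃ k, p = k + 1 := ⟨p - 1, by have := hp.out.pos; omega⟩
  have hk' : p - 1 = k := by omega
  rw [hk']
  have h1 := sup_pow_le ((Ideal.span {x, y}).map (algebraMap R (AA p x y)))
    (Ideal.span {zz p x y}) k
  rw [← max_eq' p h, ← hk] at h1
  refine h1.trans (sup_le le_rfl ?_)
  rw [Ideal.span_singleton_pow, zz_pow, Ideal.span_singleton_le_iff_mem, gg, map_add, map_pow,
    map_pow, pow_succ', pow_succ']
  have hx : algebraMap R (AA p x y) x ∈ (Ideal.span {x, y}).map (algebraMap R (AA p x y)) :=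
    Ideal.mem_map_of_mem _ (mem_l x y)
  have hy : algebraMap R (AA p x y) y ∈ (Ideal.span {x, y}).map (algebraMap R (AA p x y)) :=
    Ideal.mem_map_of_mem _ (mem_r x y)
  have hle : maximalIdeal (AA p x y) ^ p ≤ maximalIdeal (AA p x y) ^ k :=
    Ideal.pow_le_pow_right (by omega)
  exact add_mem (Ideal.mul_mem_mul hx (hle (Ideal.pow_mem_pow (J_le p h hx) _)))
    (Ideal.mul_mem_mul hy (hle (Ideal.pow_mem_pow (J_le p h hy) _)))

omit [IsDomain R] in
theorem max_pow_le [IsLocalRing (AA p x y)] (n : ℕ) : maximalIdeal (AA p x y) ^ (n + (p - 1)) ≤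
    (Ideal.span {x, y} ^ n).map (algebraMap R (AA p x y)) := by
  induction n with
  | zero =>
    rw [pow_zero, Ideal.one_eq_top, Ideal.map_top]
    exact le_top
  | succ n ih =>
    have h1 : n + 1 + (p - 1) = n + p := by have := hp.out.pos; omega
    rw [h1, pow_add]
    refine (Ideal.mul_mono_right (red p h)).trans ?_
    rw [mul_left_comm, ← pow_add, pow_succ', Ideal.map_mul]
    exact Ideal.mul_mono_right ih

omit [IsDomain R] in
theorem le_max_pow [IsLocalRing (AA p x y)] (n : ℕ) :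
    (Ideal.span {x, y} ^ n).map (algebraMap R (AA p x y)) ≤ maximalIdeal (AA p x y) ^ n := by
  rw [Ideal.map_pow]
  exact Ideal.pow_right_mono (J_le p h) n

theorem len_J [IsLocalRing (AA p x y)] (n : ℕ) : Module.length (AA p x y)
    (AA p x y ⧸ (Ideal.span {x, y} ^ n).map (algebraMap R (AA p x y))) =
      (p * (n * (n + 1) / 2) : ℕ) := by
  rw [len_A p h, h.lenm]
  push_cast
  rfl

theorem len_max_le [IsLocalRing (AA p x y)] (n : ℕ) :
    (Module.length (AA p x y) (AA p x y ⧸ maximalIdeal (AA p x y) ^ n)).toNat ≤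
      p * (n * (n + 1) / 2) := by
  have h1 := len_mono (le_max_pow p h n)
  rw [len_J p h] at h1
  exact ENat.toNat_le_of_le_natCast h1

theorem le_len_max [IsLocalRing (AA p x y)] (n : ℕ) :
    p * (n * (n + 1) / 2) ≤
    (Module.length (AA p x y)
      (AA p x y ⧸ maximalIdeal (AA p x y) ^ (n + (p - 1)))).toNat := by
  have h1 := len_mono (max_pow_le p h n)
  rw [len_J p h] at h1
  have h2 := len_mono (le_max_pow p h (n + (p - 1)))
  rw [len_J p h] at h2
  have h3 : Module.length (AA p x y) (AA p x y ⧸ maximalIdeal (AA p x y) ^ (n + (p - 1))) ≠ ⊤ :=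
    ne_top_of_le_ne_top (ENat.natCast_ne_top _) h2
  rw [← ENat.natCast_toNat h3] at h1
  exact_mod_cast h1

/-- the multiplicity is `p` -/
theorem mult [IsLocalRing (AA p x y)] : IsMultiplicity (AA p x y) 2 p := by
  have hp0 : 0 < p := hp.out.pos
  have e2 : ∀ n : ℕ, ((n * (n + 1) / 2 : ℕ) : ℝ) = (n : ℝ) * (n + 1) / 2 := by
    intro n
    have h1 : 2 ∣ n * (n + 1) := (Nat.even_mul_succ_self n).two_dvd
    rw [Nat.cast_div h1 (by norm_num)]
    push_cast
    ring
  have hu : ∀ n : ℕ, 0 < n → (2 : ℕ).factorial * ((Module.length (AA p x y)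
      (AA p x y ⧸ maximalIdeal (AA p x y) ^ n)).toNat : ℝ) / (n : ℝ) ^ 2 ≤ p + p / n := by
    intro n hn
    have h1 : ((Module.length (AA p x y) (AA p x y ⧸ maximalIdeal (AA p x y) ^ n)).toNat : ℝ) ≤
        p * ((n : ℝ) * (n + 1) / 2) := by
      rw [← e2]
      exact_mod_cast len_max_le p h n
    have hn' : (0 : ℝ) < n := by exact_mod_cast hn
    rw [div_le_iff₀ (by positivity)]
    have h2 : ((p : ℝ) + p / n) * n ^ 2 = p * (n * (n + 1)) := by
      field_simp
    rw [h2]
    have h3 : ((2 : ℕ).factorial : ℝ) = 2 := by norm_num [Nat.factorial]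
    rw [h3]
    linarith
  have hl : ∀ n : ℕ, p ≤ n → (p : ℝ) - 2 * p ^ 2 / n ≤ (2 : ℕ).factorial * ((Module.length (AA p x y)
      (AA p x y ⧸ maximalIdeal (AA p x y) ^ n)).toNat : ℝ) / (n : ℝ) ^ 2 := by
    intro n hn
    obtain ⟨m, rfl⟩ : ∃ m, n = m + (p - 1) := ⟨n - (p - 1), by omega⟩
    have h1 : (p : ℝ) * ((m : ℝ) * (m + 1) / 2) ≤ ((Module.length (AA p x y)
        (AA p x y ⧸ maximalIdeal (AA p x y) ^ (m + (p - 1)))).toNat : ℝ) := by
      rw [← e2]
      exact_mod_cast le_len_max p h m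
    obtain ⟨k, hk⟩ : ∃ k : ℕ, k = m + (p - 1) := ⟨_, rfl⟩
    have hm : (m : ℝ) = k - p + 1 := by
      have : (k : ℝ) + 1 = m + p := by
        have h4 : k + 1 = m + p := by omega
        exact_mod_cast h4
      linarith
    rw [← hk] at h1 ⊢
    have hk0 : (0 : ℝ) < k := by
      have : 0 < k := by omega
      exact_mod_cast this
    rw [le_div_iff₀ (by positivity)]
    have h2 : ((p : ℝ) - 2 * p ^ 2 / k) * k ^ 2 = p * (k * (k - 2 * p)) := by
      field_simp
    rw [h2]
    have h3 : ((2 : ℕ).factorial : ℝ) = 2 := by norm_num [Nat.factorial]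
    rw [h3]
    rw [hm] at h1
    have hpr : (1 : ℝ) ≤ p := by exact_mod_cast hp0
    have h5 : (k : ℝ) * (k - 2 * p) ≤ (k - p + 1) * (k - p + 1 + 1) := by nlinarith
    have h6 := mul_le_mul_of_nonneg_left h5 (by linarith : (0 : ℝ) ≤ p)
    linarith
  have t1 : Tendsto (fun n : ℕ => (p : ℝ) + p / n) atTop (𝓝 (p : ℝ)) := by
    have := (tendsto_const_nhds (x := (p : ℝ))).add
      (tendsto_const_div_atTop_nhds_zero_nat (p : ℝ))
    simpa using this
  have t2 : Tendsto (fun n : ℕ => (p : ℝ) - 2 * (p : ℝ) ^ 2 / (n : ℝ)) atTop (𝓝 (p : ℝ)) := by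
    have := (tendsto_const_nhds (x := (p : ℝ))).sub
      (tendsto_const_div_atTop_nhds_zero_nat (2 * (p : ℝ) ^ 2))
    simpa using this
  refine tendsto_of_tendsto_of_tendsto_of_le_of_le' t2 t1 ?_ ?_
  · filter_upwards [eventually_ge_atTop p] with n hn
    exact hl n hn
  · filter_upwards [eventually_gt_atTop 0] with n hn
    exact hu n hn

/-- the Hilbert-Kunz multiplicity is `p` -/
theorem hk [IsLocalRing (AA p x y)] : IsHilbertKunz (AA p x y) p 2 p := by
  refine tendsto_nhds_of_eventually_eq ?_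
  filter_upwards [eventually_ge_atTop 1] with e he
  obtain ⟨k, rfl⟩ := Nat.exists_eq_add_of_le' he
  rw [len_frob p h, ENat.toNat_natCast]
  have hp0 : (p : ℝ) ≠ 0 := by exact_mod_cast hp.out.ne_zero
  push_cast
  field_simp

end mult

end Pool.Agent.L5helper65.HK
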