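import Pool.Agent.L5helper65.HK.PS

/-!
# Normality
-/

set_option autoImplicit false

namespace Pool.Agent.L5helper65.HK

open IsLocalRing

section der

variable {R : Type} [CommRing R] [IsDomain R] [IsLocalRing R] (p : ℕ) [hp : Fact p.Prime]
  [CharP R p] {x y : R} (h : Reg2 R x y) (Dx Dy : Derivation ℤ R R)

/-- the two derivations are `∂/∂x` and `∂/∂y` -/
structure Dual (x y : R) (Dx Dy : Derivation ℤ R R) : Prop where
  xx : Dx x = 1
  xy : Dx y = 0
  yx : Dy x = 0
  yy : Dy y = 1

omit [IsDomain R] [IsLocalRing R] hp in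
theorem D_pow_p (D : Derivation ℤ R R) (a : R) : D (a ^ p) = 0 := by
  rw [D.leibniz_pow, ← Nat.cast_smul_eq_nsmul R, CharP.cast_eq_zero, zero_smul]

omit [IsDomain R] [IsLocalRing R] hp in
theorem D_pow_p1 (D : Derivation ℤ R R) (a : R) : D (a ^ (p + 1)) = a ^ p * D a := by
  rw [pow_succ, D.leibniz, D_pow_p, smul_zero, add_zero, smul_eq_mul]

omit [IsLocalRing R] hp in
variable {Dx Dy} in
theorem D_gg (hD : Dual x y Dx Dy) : Dx (gg p x y) = x ^ p ∧ Dy (gg p x y) = y ^ p := by
  rw [gg, map_add, map_add, D_pow_p1, D_pow_p1, D_pow_p1, D_pow_p1, hD.xx, hD.xy, hD.yx, hD.yy]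
  simp

omit [IsDomain R] [IsLocalRing R] hp [CharP R p] in
theorem D_sum (D : Derivation ℤ R R) (g : R) (c : ℕ → R) (hc : ∀ i, D (c i) = 0) (n : ℕ) :
    D (∑ i ∈ Finset.range (n + 2), c i * g ^ i) =
      D g * ∑ i ∈ Finset.range (n + 1), (((i + 1 : ℕ) : R) * c (i + 1)) * g ^ i := by
  rw [Finset.sum_range_succ', map_add, map_sum, pow_zero, mul_one, hc, add_zero, Finset.mul_sum]
  refine Finset.sum_congr rfl fun i _ => ?_
  rw [D.leibniz, hc, smul_zero, add_zero, D.leibniz_pow, Nat.add_sub_cancel,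
    ← Nat.cast_smul_eq_nsmul R]
  simp only [smul_eq_mul]
  ring

include h in
variable {Dx Dy} in
theorem star (hD : Dual x y Dx Dy) (d : R) (n : ℕ) : n < p → ∀ c : ℕ → R,
    (∀ i, Dx (c i) = 0) → (∀ i, Dy (c i) = 0) →
    d ^ p ∣ ∑ i ∈ Finset.range (n + 1), c i * gg p x y ^ i → ∀ i, i ≤ n → d ^ p ∣ c i := by
  have hy0 : y ≠ 0 := h.prime.ne_zero
  induction n with
  | zero =>
    intro _ c _ _ hd i hi
    obtain rfl : i = 0 := by omega
    simpa using hd
  | succ n ih =>
    intro hn c hcx hcy hd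
    obtain ⟨m, hm⟩ := hd
    have h1 := D_sum Dx (gg p x y) c hcx n
    have h2 := D_sum Dy (gg p x y) c hcy n
    rw [hm, (D_gg p hD).1, Dx.leibniz, D_pow_p, smul_zero, add_zero, smul_eq_mul] at h1
    rw [hm, (D_gg p hD).2, Dy.leibniz, D_pow_p, smul_zero, add_zero, smul_eq_mul] at h2
    set S := ∑ i ∈ Finset.range (n + 1), (((i + 1 : ℕ) : R) * c (i + 1)) * gg p x y ^ i with hS
    have h3 : d ^ p ∣ S := by
      by_cases hd0 : d ^ p = 0
      · rw [hd0, zero_mul] at h2
        have h4 : S = 0 := by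
          rcases mul_eq_zero.1 h2.symm with h5 | h5
          · exact absurd h5 (pow_ne_zero _ hy0)
          · exact h5
        rw [h4]
        exact dvd_zero _
      · have h4 : y ^ p * Dx m = x ^ p * Dy m := by
          apply mul_left_cancel₀ hd0
          linear_combination y ^ p * h1 - x ^ p * h2
        obtain ⟨m', hm'⟩ : y ^ p ∣ Dy m := by
          apply h.prime.pow_dvd_of_dvd_mul_left p (a := x ^ p) (b := Dy m)
          · intro h5
            exact h.ndvd (h.prime.dvd_of_dvd_pow h5)
          · exact Dvd.intro _ h4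
        refine ⟨m', ?_⟩
        apply mul_left_cancel₀ (pow_ne_zero p hy0)
        rw [← h2, hm']
        ring
    have h4 := ih (by omega) (fun i => ((i + 1 : ℕ) : R) * c (i + 1))
      (fun i => by rw [Dx.leibniz, hcx, Dx.map_natCast]; simp)
      (fun i => by rw [Dy.leibniz, hcy, Dy.map_natCast]; simp) h3
    have h5 : ∀ i, i ≤ n → d ^ p ∣ c (i + 1) := by
      intro i hi
      have h6 : IsUnit (((i + 1 : ℕ) : R)) := by
        rw [CharP.isUnit_natCast_iff hp.out]
        intro h7
        exact absurd (Nat.le_of_dvd (by omega) h7) (by omega)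
      exact (h6.dvd_mul_left).1 (h4 i hi)
    intro i hi
    rcases i with _ | i
    · have h6 : c 0 = d ^ p * m - ∑ i ∈ Finset.range (n + 1), c (i + 1) * gg p x y ^ (i + 1) := by
        rw [← hm, Finset.sum_range_succ']
        ring
      rw [h6]
      refine dvd_sub (Dvd.intro _ rfl) (Finset.dvd_sum fun i hi => ?_)
      exact Dvd.dvd.mul_right (h5 i (by have := Finset.mem_range.1 hi; omega)) _
    · exact h5 i (by omega)

omit [IsDomain R] [IsLocalRing R] in
/-- the `p`-th power of an element -/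
theorem pow_p_eq [Nontrivial R] (a : AA p x y) : a ^ p = algebraMap R (AA p x y)
    (∑ i : Fin p, ((BB p x y).repr a i) ^ p * gg p x y ^ (i : ℕ)) := by
  have hA : CharP (AA p x y) p := charP_of_injective_algebraMap (alg_inj p x y) p
  conv_lhs => rw [sum_rep p x y a]
  rw [← frobenius_def, map_sum, map_sum]
  refine Finset.sum_congr rfl fun i _ => ?_
  rw [frobenius_def, mul_pow, ← pow_mul, mul_comm (i : ℕ) p, pow_mul, zz_pow, map_mul, map_pow,
    map_pow]

include h in
variable {Dx Dy} in
theorem star' (hD : Dual x y Dx Dy) (d : R) (a : AA p x y) (s : R)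
    (ha : a ^ p = algebraMap R (AA p x y) s) (hs : d ^ p ∣ s) (i : Fin p) :
    d ^ p ∣ ((BB p x y).repr a i) ^ p := by
  obtain ⟨n, hn⟩ : ∃ n, p = n + 1 := ⟨p - 1, by have := hp.out.pos; omega⟩
  have h1 : s = ∑ i : Fin p, ((BB p x y).repr a i) ^ p * gg p x y ^ (i : ℕ) := by
    apply alg_inj p x y
    rw [← ha, pow_p_eq]
  let c : ℕ → R := fun j => if hj : j < p then ((BB p x y).repr a ⟨j, hj⟩) ^ p else 0
  have hc : ∀ j : Fin p, c j = ((BB p x y).repr a j) ^ p := fun j => dif_pos j.2
  have h2 : s = ∑ j ∈ Finset.range (n + 1), c j * gg p x y ^ j := by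
    rw [h1, ← hn, Finset.sum_range]
    exact Finset.sum_congr rfl fun j _ => by rw [hc]
  have hcD : ∀ D : Derivation ℤ R R, ∀ j, D (c j) = 0 := by
    intro D j
    by_cases hj : j < p
    · have : c j = ((BB p x y).repr a ⟨j, hj⟩) ^ p := dif_pos hj
      rw [this, D_pow_p]
    · have : c j = 0 := dif_neg hj
      rw [this, map_zero]
  rw [← hc]
  exact star p h hD d n (by omega) c (hcD Dx) (hcD Dy) (h2 ▸ hs) i (by have := i.2; omega)

include h in
variable {Dx Dy} in
theorem AA_domain (hD : Dual x y Dx Dy) : IsDomain (AA p x y) := by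
  have hA : CharP (AA p x y) p := charP_of_injective_algebraMap (alg_inj p x y) p
  have h0 : ∀ a : AA p x y, a ^ p = 0 → a = 0 := by
    intro a ha
    have h1 := star' p h hD 0 a 0 (by rw [ha, map_zero]) (dvd_zero _)
    rw [sum_rep p x y a]
    refine Finset.sum_eq_zero fun i _ => ?_
    have h2 := h1 i
    rw [zero_pow hp.out.ne_zero, zero_dvd_iff] at h2
    rw [eq_zero_of_pow_eq_zero h2, map_zero, zero_mul]
  have h1 : NoZeroDivisors (AA p x y) := by
    constructor
    intro a b hab
    obtain ⟨r, hr⟩ := pow_mem_R p x y a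
    obtain ⟨s, hs⟩ := pow_mem_R p x y b
    have h2 : r * s = 0 := by
      apply alg_inj p x y
      rw [map_mul, ← hr, ← hs, ← mul_pow, hab, zero_pow hp.out.ne_zero, map_zero]
    rcases mul_eq_zero.1 h2 with h3 | h3
    · left
      apply h0
      rw [hr, h3, map_zero]
    · right
      apply h0
      rw [hs, h3, map_zero]
  have h2 : Nontrivial (AA p x y) := (alg_inj p x y).nontrivial
  exact NoZeroDivisors.to_isDomain _

omit [IsLocalRing R] in
theorem dvd_of_int [IsIntegrallyClosed R] {K : Type} [Field K] [Algebra R K]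
    (hK : Function.Injective (algebraMap R K)) (z : K) (hz : IsIntegral R z) (s t : R)
    (ht : t ≠ 0) (hst : z * algebraMap R K t = algebraMap R K s) : t ∣ s := by
  let φ : FractionRing R →ₐ[R] K := IsFractionRing.liftAlgHom (g := Algebra.ofId R K) hK
  have hφ : ∀ r : R, φ (algebraMap R (FractionRing R) r) = algebraMap R K r := fun r => φ.commutes r
  have ht' : algebraMap R (FractionRing R) t ≠ 0 := by
    intro h0
    exact ht ((IsFractionRing.injective R (FractionRing R)) (by rw [h0, map_zero]))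
  have h1 : φ (algebraMap R (FractionRing R) s / algebraMap R (FractionRing R) t) = z := by
    have h2 : algebraMap R K t ≠ 0 := by
      intro h0
      exact ht (hK (by rw [h0, map_zero]))
    rw [map_div₀, hφ, hφ, ← hst, mul_div_cancel_right₀ _ h2]
  rw [← h1, isIntegral_algHom_iff φ φ.injective] at hz
  obtain ⟨r, hr⟩ := IsIntegrallyClosed.isIntegral_iff.1 hz
  refine ⟨r, ?_⟩
  apply IsFractionRing.injective R (FractionRing R)
  rw [map_mul, hr]
  field_simp

include h in
variable {Dx Dy} in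
theorem AA_normal [IsIntegrallyClosed R] (hD : Dual x y Dx Dy) : IsIntegrallyClosed (AA p x y) := by
  have hdom := AA_domain p h hD
  let K := FractionRing (AA p x y)
  rw [isIntegrallyClosed_iff K]
  intro z hz
  have hinj : Function.Injective (algebraMap (AA p x y) K) := IsFractionRing.injective _ _
  have hinj' : Function.Injective (algebraMap R K) := by
    rw [IsScalarTower.algebraMap_eq R (AA p x y) K]
    exact hinj.comp (alg_inj p x y)
  obtain ⟨a, b, hb, rfl⟩ := IsFractionRing.div_surjective (A := AA p x y) z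
  have hb0 : b ≠ 0 := nonZeroDivisors.ne_zero hb
  obtain ⟨d, hd⟩ := pow_mem_R p x y b
  have hd0 : d ≠ 0 := by
    rintro rfl
    rw [map_zero] at hd
    exact hb0 (eq_zero_of_pow_eq_zero hd)
  obtain ⟨s, hs⟩ := pow_mem_R p x y (a * b ^ (p - 1))
  set z := algebraMap (AA p x y) K a / algebraMap (AA p x y) K b with hz'
  have hbK : algebraMap (AA p x y) K b ≠ 0 := by
    intro h0
    exact hb0 (hinj (by rw [h0, map_zero]))
  have h1 : z * algebraMap (AA p x y) K (algebraMap R (AA p x y) d) =
      algebraMap (AA p x y) K (a * b ^ (p - 1)) := by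
    have h2 : b ^ p = b * b ^ (p - 1) := by
      rw [← pow_succ']
      congr 1
      have := hp.out.pos
      omega
    rw [← hd, h2, map_mul, map_mul, hz', ← mul_assoc, div_mul_cancel₀ _ hbK]
  have h2 : IsIntegral R z := isIntegral_trans (A := AA p x y) z hz
  have h3 : z ^ p * algebraMap R K (d ^ p) = algebraMap R K s := by
    rw [IsScalarTower.algebraMap_apply R (AA p x y) K, IsScalarTower.algebraMap_apply R (AA p x y) K,
      ← hs, map_pow, map_pow, map_pow, ← mul_pow, h1]
  have h4 : d ^ p ∣ s := dvd_of_int hinj' (z ^ p) (h2.pow p) s (d ^ p) (pow_ne_zero _ hd0) h3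
  have h5 := star' p h hD d (a * b ^ (p - 1)) s hs h4
  have h6 : ∀ i, d ∣ (BB p x y).repr (a * b ^ (p - 1)) i := fun i =>
    (IsIntegrallyClosed.pow_dvd_pow_iff hp.out.ne_zero).1 (h5 i)
  choose r hr using h6
  refine ⟨∑ i, algebraMap R (AA p x y) (r i) * zz p x y ^ (i : ℕ), ?_⟩
  have h7 : a * b ^ (p - 1) = algebraMap R (AA p x y) d *
      ∑ i, algebraMap R (AA p x y) (r i) * zz p x y ^ (i : ℕ) := by
    conv_lhs => rw [sum_rep p x y (a * b ^ (p - 1))]
    rw [Finset.mul_sum]
    refine Finset.sum_congr rfl fun i _ => ?_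
    rw [hr i, map_mul, mul_assoc]
  have hdK : algebraMap (AA p x y) K (algebraMap R (AA p x y) d) ≠ 0 := by
    intro h0
    exact hd0 (alg_inj p x y (hinj (by rw [h0, map_zero, map_zero])))
  apply mul_right_cancel₀ hdK
  rw [h1, h7, map_mul, mul_comm]

end der

end Pool.Agent.L5helper65.HK
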