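import Pool.Agent.L5helper65.HK.Gor

/-!
# The ring `k⟦x⟧⟦y⟧`
-/

set_option autoImplicit false

namespace Pool.Agent.L5helper65.HK

open IsLocalRing

section ps

open PowerSeries

theorem fin_of {A B ι : Type} [CommRing A] [CommRing B] [Fintype ι] (φ : A →+* B) (b : ι → B)
    (h : ∀ s, ∃ t : ι → A, s = ∑ i, φ (t i) * b i) : φ.Finite := by
  algebraize [φ]
  refine Module.Finite.of_surjective (Fintype.linearCombination A b) ?_
  intro s
  obtain ⟨t, ht⟩ := h s
  refine ⟨t, ?_⟩
  rw [Fintype.linearCombination_apply, ht]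
  rfl

theorem of_fin {A B : Type} [CommRing A] [CommRing B] (φ : A →+* B) (h : φ.Finite) :
    ∃ (n : ℕ) (b : Fin n → B), ∀ s, ∃ t : Fin n → A, s = ∑ i, φ (t i) * b i := by
  algebraize [φ]
  obtain ⟨n, b, hb⟩ := Module.Finite.exists_fin (R := A) (M := B)
  refine ⟨n, b, fun s => ?_⟩
  have h1 : s ∈ Submodule.span A (Set.range b) := by rw [hb]; trivial
  rw [Submodule.mem_span_range_iff_exists_fun] at h1
  obtain ⟨c, hc⟩ := h1
  refine ⟨c, ?_⟩
  rw [← hc]
  rfl

variable {S : Type} [CommRing S] (p : ℕ) [hp : Fact p.Prime] [CharP S p]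

instance PS_charP : CharP S⟦X⟧ p :=
  charP_of_injective_ringHom (C_injective (R := S)) p

theorem coeff_pow_p (f : S⟦X⟧) (n : ℕ) :
    coeff n (f ^ p) = if p ∣ n then (coeff (n / p) f) ^ p else 0 := by
  have h1 : f ^ p = (f.expand p hp.out.ne_zero).map (frobenius S p) :=
    (MvPowerSeries.map_frobenius_expand p hp.out.ne_zero).symm
  rw [h1, coeff_map, coeff_expand]
  split_ifs
  · rfl
  · rw [map_zero]

theorem ps_ffinite (h : (frobenius S p).Finite) : (frobenius S⟦X⟧ p).Finite := by
  obtain ⟨n, b, hb⟩ := of_fin _ h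
  choose t ht using hb
  refine fin_of (ι := Fin n × Fin p) _ (fun q => C (b q.1) * X ^ (q.2 : ℕ)) ?_
  intro f
  refine ⟨fun q => mk fun m => t (coeff (p * m + q.2) f) q.1, ?_⟩
  ext N
  rw [map_sum, Fintype.sum_prod_type]
  have h1 : ∀ (i : Fin n) (j : Fin p), coeff N (frobenius S⟦X⟧ p (mk fun m =>
      t (coeff (p * m + j) f) i) * (C (b i) * X ^ (j : ℕ))) =
      if (j : ℕ) = N % p then frobenius S p (t (coeff N f) i) * b i else 0 := by
    intro i j
    have hj := j.2
    rw [← mul_assoc, coeff_mul_X_pow', coeff_mul_C, frobenius_def, coeff_pow_p, coeff_mk]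
    by_cases h2 : (j : ℕ) = N % p
    · have h3 : (j : ℕ) ≤ N := h2 ▸ Nat.mod_le _ _
      have h4 : p ∣ N - j := by rw [h2]; exact Nat.dvd_sub_mod N
      have h5 : p * ((N - j) / p) + j = N := by rw [Nat.mul_div_cancel' h4]; omega
      rw [if_pos h3, if_pos h4, if_pos h2, h5, frobenius_def]
    · rw [if_neg h2]
      by_cases h3 : (j : ℕ) ≤ N
      · rw [if_pos h3, if_neg, zero_mul]
        intro h4
        apply h2
        have h5 : N % p = (j : ℕ) % p := by
          have h6 : N = (N - j) + j := by omega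
          rw [h6, Nat.add_mod, Nat.mod_eq_zero_of_dvd h4, zero_add, Nat.mod_mod]
        rw [h5, Nat.mod_eq_of_lt hj]
      · rw [if_neg h3]
  simp only [h1]
  have h2 : N % p < p := Nat.mod_lt _ hp.out.pos
  have h3 : ∀ i : Fin n, (∑ j : Fin p, if (j : ℕ) = N % p then
      frobenius S p (t (coeff N f) i) * b i else 0) = frobenius S p (t (coeff N f) i) * b i := by
    intro i
    rw [Finset.sum_eq_single (⟨N % p, h2⟩ : Fin p)]
    · rw [if_pos rfl]
    · intro j _ hj
      rw [if_neg]
      intro h4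
      exact hj (Fin.ext h4)
    · intro h4
      exact absurd (Finset.mem_univ _) h4
  rw [Finset.sum_congr rfl fun i _ => h3 i]
  exact ht _

variable {k : Type} [Field k]

theorem ps_reg2 : Reg2 k⟦X⟧⟦X⟧ (C X) X where
  max := by
    ext f
    rw [mem_maximalIdeal, mem_nonunits_iff, isUnit_iff_constantCoeff, isUnit_iff_constantCoeff,
      isUnit_iff_ne_zero, not_not, mem_pair]
    constructor
    · intro h
      obtain ⟨g, hg⟩ := X_dvd_iff.2 h
      refine ⟨C g, mk fun n => coeff (n + 1) f, ?_⟩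
      conv_rhs => rw [eq_shift_mul_X_add_const f, hg, map_mul]
      ring
    · rintro ⟨a, b, rfl⟩
      simp
  prime := X_prime
  ndvd := by
    intro h
    rw [X_dvd_iff, constantCoeff_C] at h
    exact X_ne_zero h

end ps

end Pool.Agent.L5helper65.HK
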