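import Pool.Agent.L5helper65.HK.Len

/-!
# The ring `R[z]/(z^p - x^(p+1) - y^(p+1))`
-/

set_option autoImplicit false

namespace Pool.Agent.L5helper65.HK

open IsLocalRing Polynomial

section ring

variable {R : Type} [CommRing R] (p : ℕ) (x y : R)

/-- `x^(p+1) + y^(p+1)` -/
def gg : R := x ^ (p + 1) + y ^ (p + 1)

/-- `z^p - x^(p+1) - y^(p+1)` -/
noncomputable def ff : R[X] := X ^ p - C (gg p x y)

/-- `R[z]/(z^p - x^(p+1) - y^(p+1))` -/
abbrev AA : Type := AdjoinRoot (ff p x y)

/-- the class of `z` -/
noncomputable def zz : AA p x y := AdjoinRoot.root (ff p x y)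

theorem zz_pow : zz p x y ^ p = algebraMap R (AA p x y) (gg p x y) := by
  have h := AdjoinRoot.eval₂_root (ff p x y)
  rw [ff, eval₂_sub, eval₂_X_pow, eval₂_C, sub_eq_zero] at h
  exact h

theorem exists_rep (a : AA p x y) : ∃ (r : R) (c : AA p x y),
    a = algebraMap R (AA p x y) r + zz p x y * c := by
  induction a using AdjoinRoot.induction_on with
  | ih f =>
    refine ⟨f.coeff 0, AdjoinRoot.mk _ f.divX, ?_⟩
    conv_lhs => rw [← divX_mul_X_add f]
    rw [map_add, map_mul, AdjoinRoot.mk_X, AdjoinRoot.mk_C]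
    change _ * zz p x y + _ = _
    rw [AdjoinRoot.algebraMap_eq]
    ring

variable [hp : Fact p.Prime]

theorem ff_monic : (ff p x y).Monic := monic_X_pow_sub_C _ hp.out.ne_zero

variable [Nontrivial R]

omit hp in
theorem ff_natDegree : (ff p x y).natDegree = p := natDegree_X_pow_sub_C

/-- the basis `1, z, ..., z^(p-1)` -/
noncomputable def BB : Module.Basis (Fin p) R (AA p x y) :=
  (AdjoinRoot.powerBasis' (ff_monic p x y)).basis.reindex
    (finCongr (by rw [AdjoinRoot.powerBasis'_dim, ff_natDegree]))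

theorem BB_apply (i : Fin p) : BB p x y i = zz p x y ^ (i : ℕ) := by
  rw [BB, Module.Basis.reindex_apply, PowerBasis.coe_basis]
  rfl

instance : Module.Finite R (AA p x y) := Module.Finite.of_basis (BB p x y)

instance : Module.Free R (AA p x y) := Module.Free.of_basis (BB p x y)

theorem sum_rep (a : AA p x y) :
    a = ∑ i, algebraMap R (AA p x y) ((BB p x y).repr a i) * zz p x y ^ (i : ℕ) := by
  conv_lhs => rw [← (BB p x y).sum_repr a]
  refine Finset.sum_congr rfl fun i _ => ?_
  rw [BB_apply, Algebra.smul_def]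

theorem mem_map_iff (I : Ideal R) (a : AA p x y) :
    a ∈ I.map (algebraMap R (AA p x y)) ↔ ∀ i, (BB p x y).repr a i ∈ I := by
  constructor
  · intro ha i
    have h1 : a ∈ (I • (⊤ : Submodule R (AA p x y))) := by
      rw [Ideal.smul_top_eq_map]
      exact ha
    refine Submodule.smul_induction_on h1 ?_ ?_
    · intro r hr c _
      rw [map_smul, Finsupp.smul_apply]
      exact I.mul_mem_right _ hr
    · intro u v hu hv
      rw [map_add, Finsupp.add_apply]
      exact add_mem hu hv
  · intro h
    rw [sum_rep p x y a]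
    exact sum_mem fun i _ => Ideal.mul_mem_right _ _ (Ideal.mem_map_of_mem _ (h i))

theorem repr_pow (i : ℕ) (hi : i < p) (r : R) (j : Fin p) :
    (BB p x y).repr (algebraMap R (AA p x y) r * zz p x y ^ i) j =
      if (j : ℕ) = i then r else 0 := by
  have h1 : algebraMap R (AA p x y) r * zz p x y ^ i = r • BB p x y ⟨i, hi⟩ := by
    rw [BB_apply, Algebra.smul_def]
  rw [h1, map_smul, Module.Basis.repr_self, Finsupp.smul_apply, Finsupp.single_apply]
  by_cases h : (j : ℕ) = i
  · have h2 : (⟨i, hi⟩ : Fin p) = j := Fin.ext h.symm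
    rw [if_pos h2, if_pos h, smul_eq_mul, mul_one]
  · have h2 : (⟨i, hi⟩ : Fin p) ≠ j := fun e => h (by rw [← e])
    rw [if_neg h2, if_neg h, smul_zero]

theorem alg_inj : Function.Injective (algebraMap R (AA p x y)) := by
  intro r s h
  have h1 := repr_pow p x y 0 hp.out.pos r ⟨0, hp.out.pos⟩
  have h2 := repr_pow p x y 0 hp.out.pos s ⟨0, hp.out.pos⟩
  rw [h, h2] at h1
  simpa using h1.symm

/-- the length of `A/IA` over `R` -/
theorem len_map (I : Ideal R) : Module.length R
    (AA p x y ⧸ (I.map (algebraMap R (AA p x y)))) = p * Module.length R (R ⧸ I) := by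
  let φ : AA p x y →ₗ[R] (Fin p → R ⧸ I) :=
    LinearMap.pi fun i => (Submodule.mkQ I).comp ((Finsupp.lapply i).comp (BB p x y).repr.toLinearMap)
  have hφ : ∀ a i, φ a i = Submodule.Quotient.mk ((BB p x y).repr a i) := fun a i => rfl
  have hs : Function.Surjective φ := by
    intro v
    choose w hw using fun i => Submodule.Quotient.mk_surjective I (v i)
    refine ⟨(BB p x y).repr.symm (Finsupp.equivFunOnFinite.symm w), ?_⟩
    funext i
    rw [hφ, LinearEquiv.apply_symm_apply]
    exact hw i
  have hk : LinearMap.ker φ = (I.map (algebraMap R (AA p x y))).restrictScalars R := by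
    ext a
    rw [LinearMap.mem_ker, Submodule.restrictScalars_mem, mem_map_iff]
    constructor
    · intro h i
      have h1 := congrFun h i
      rw [hφ] at h1
      exact (Submodule.Quotient.mk_eq_zero I).1 h1
    · intro h
      funext i
      rw [hφ]
      exact (Submodule.Quotient.mk_eq_zero I).2 (h i)
  have e1 : (AA p x y ⧸ (I.map (algebraMap R (AA p x y)))) ≃ₗ[R] (AA p x y ⧸ LinearMap.ker φ) :=
    (Submodule.Quotient.restrictScalarsEquiv R _).symm.trans
      (Submodule.quotEquivOfEq _ _ hk.symm)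
  rw [(e1.trans (LinearMap.quotKerEquivOfSurjective φ hs)).length_eq,
    Module.length_pi_of_fintype]
  simp

end ring

end Pool.Agent.L5helper65.HK
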