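import Pool.Agent.L5helper65.HK.Der

/-!
# The modules `F^e_* A` are Ulrich modules
-/

set_option autoImplicit false

namespace Pool.Agent.L5helper65.HK

open IsLocalRing RingTheory.Sequence
open scoped Pointwise

/-- `M` is an Ulrich module over the local ring `A`: it is finitely generated and there is a regular
sequence `rs` on `M` of length `dim A` with `m M = (rs) M` (so that `M` is maximal Cohen-Macaulay
and `e(M) = ℓ(M/(rs)M) = μ(M)`) -/
def IsUlrich (A M : Type) [CommRing A] [IsLocalRing A] [AddCommGroup M] [Module A M] : Prop :=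
  Module.Finite A M ∧ ∃ rs : List A, IsRegular M rs ∧
    ((rs.length : ℕ) : WithBot ℕ∞) = ringKrullDim A ∧
    Ideal.ofList rs • (⊤ : Submodule A M) = maximalIdeal A • ⊤

section fin

variable {A : Type} [CommRing A] (p : ℕ) [Fact p.Prime] [CharP A p]

theorem iter_finite (h : (frobenius A p).Finite) (e : ℕ) : (iterateFrobenius A p e).Finite := by
  induction e with
  | zero => rw [iterateFrobenius_zero]; exact RingHom.Finite.id _
  | succ e ih =>
    have h1 : iterateFrobenius A p (e + 1) = (frobenius A p).comp (iterateFrobenius A p e) := by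
      ext a
      rw [RingHom.comp_apply, iterateFrobenius_def, iterateFrobenius_def, frobenius_def, pow_succ,
        pow_mul]
    rw [h1]
    exact RingHom.Finite.comp h ih

theorem push_finite (h : (frobenius A p).Finite) (e : ℕ) : Module.Finite A (Push A p e) := by
  obtain ⟨n, b, hb⟩ := of_fin _ (iter_finite p h e)
  refine Module.Finite.of_surjective
    (Fintype.linearCombination A fun i => Push.of p e (b i)) ?_
  intro s
  obtain ⟨t, ht⟩ := hb s.out
  refine ⟨t, ?_⟩
  rw [Fintype.linearCombination_apply]
  simp only [push_smul]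
  change ∑ i, t i ^ p ^ e * b i = s.out
  rw [ht]
  simp only [iterateFrobenius_def]

end fin

section ul

variable {R : Type} [CommRing R] [IsDomain R] [IsLocalRing R] (p : ℕ) [hp : Fact p.Prime]
  [CharP R p] {x y : R} (h : Reg2 R x y)

include h

theorem push_regular [IsLocalRing (AA p x y)] (e : ℕ) : IsRegular (Push (AA p x y) p (e + 1))
    [algebraMap R (AA p x y) y, algebraMap R (AA p x y) x] := by
  have hx : algebraMap R (AA p x y) x ∈ maximalIdeal (AA p x y) :=
    (mem_max p h _).2 (by rw [res_alg, residue_eq_zero_iff]; exact x_mem h)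
  have hy : algebraMap R (AA p x y) y ∈ maximalIdeal (AA p x y) :=
    (mem_max p h _).2 (by rw [res_alg, residue_eq_zero_iff]; exact y_mem h)
  have hpow : ∀ (u : R) (b : Push (AA p x y) p (e + 1)), algebraMap R (AA p x y) u • b =
      Push.of p (e + 1) ((u ^ p ^ (e + 1)) • b.out) := by
    intro u b
    rw [push_smul, Algebra.smul_def, map_pow]
  refine ⟨?_, ?_⟩
  · rw [isWeaklyRegular_cons_iff, isWeaklyRegular_singleton_iff]
    constructor
    · rw [isSMulRegular_iff_right_eq_zero_of_smul]
      intro a ha
      rw [hpow] at ha
      exact (smul_eq_zero.1 (show (y ^ p ^ (e + 1)) • a.out = 0 from ha)).resolve_left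
        (pow_ne_zero _ h.prime.ne_zero)
    · rw [isSMulRegular_quotient_iff_mem_of_smul_mem]
      intro a ha
      have key : ∀ c : Push (AA p x y) p (e + 1), c ∈ (algebraMap R (AA p x y) y) •
          (⊤ : Submodule (AA p x y) (Push (AA p x y) p (e + 1)))
          ↔ c.out ∈ (Ideal.span {y ^ p ^ (e + 1)}).map (algebraMap R (AA p x y)) := by
        intro c
        rw [Submodule.mem_smul_pointwise_iff_exists, Ideal.map_span, Set.image_singleton,
          Ideal.mem_span_singleton']
        constructor
        · rintro ⟨b, _, rfl⟩
          refine ⟨b.out, ?_⟩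
          rw [push_smul, map_pow, mul_comm]
          rfl
        · rintro ⟨b, hb⟩
          refine ⟨Push.of _ _ b, trivial, ?_⟩
          rw [push_smul]
          change algebraMap R (AA p x y) y ^ p ^ (e + 1) * b = c.out
          rw [← hb, map_pow, mul_comm]
      rw [key] at ha ⊢
      rw [hpow] at ha
      rw [mem_map_iff] at ha ⊢
      intro i
      have h1 := ha i
      change (BB p x y).repr ((x ^ p ^ (e + 1)) • a.out) i ∈ _ at h1
      rw [map_smul, Finsupp.smul_apply, smul_eq_mul, Ideal.mem_span_singleton] at h1
      rw [Ideal.mem_span_singleton]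
      exact h.prime.pow_dvd_of_dvd_mul_left _
        (fun h5 => h.ndvd (h.prime.dvd_of_dvd_pow h5)) h1
  · intro htop
    have h1 : (Push.of p (e + 1) (1 : AA p x y)) ∈
        Ideal.ofList [algebraMap R (AA p x y) y, algebraMap R (AA p x y) x] •
          (⊤ : Submodule (AA p x y) (Push (AA p x y) p (e + 1))) := by
      rw [← htop]
      trivial
    have h2 : ∀ c ∈ Ideal.ofList [algebraMap R (AA p x y) y, algebraMap R (AA p x y) x] •
          (⊤ : Submodule (AA p x y) (Push (AA p x y) p (e + 1))),
        c.out ∈ maximalIdeal (AA p x y) := by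
      intro c hc
      refine Submodule.smul_induction_on hc ?_ ?_
      · intro r hr b _
        rw [push_smul]
        have hr' : r ∈ maximalIdeal (AA p x y) := by
          have h3 : Ideal.ofList [algebraMap R (AA p x y) y, algebraMap R (AA p x y) x] ≤
              maximalIdeal (AA p x y) := by
            rw [Ideal.ofList_cons, Ideal.ofList_singleton, sup_le_iff,
              Ideal.span_singleton_le_iff_mem, Ideal.span_singleton_le_iff_mem]
            exact ⟨hy, hx⟩
          exact h3 hr
        exact Ideal.mul_mem_right _ _ (Ideal.pow_mem_of_mem _ hr' _ (pow_pos hp.out.pos _))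
      · intro u v hu hv
        exact add_mem hu hv
    exact (Ideal.ne_top_iff_one _).1 (maximalIdeal.isMaximal (AA p x y)).ne_top (h2 _ h1)

theorem push_ulrich [IsNoetherianRing R] [IsLocalRing (AA p x y)]
    (hf : (frobenius (AA p x y) p).Finite) (e : ℕ) :
    IsUlrich (AA p x y) (Push (AA p x y) p (e + 1)) := by
  refine ⟨push_finite p hf _, _, push_regular p h e, ?_, ?_⟩
  · rw [dim p h]
    rfl
  · apply le_antisymm
    · refine Submodule.smul_mono_left ?_
      rw [Ideal.ofList_cons, Ideal.ofList_singleton, sup_le_iff,
        Ideal.span_singleton_le_iff_mem, Ideal.span_singleton_le_iff_mem]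
      exact ⟨(mem_max p h _).2 (by rw [res_alg, residue_eq_zero_iff]; exact y_mem h),
        (mem_max p h _).2 (by rw [res_alg, residue_eq_zero_iff]; exact x_mem h)⟩
    · rw [Submodule.smul_le]
      intro t ht b _
      obtain ⟨u, v, huv⟩ := smul_push p h e t ht b
      rw [huv]
      have h3 : ∀ r ∈ [algebraMap R (AA p x y) y, algebraMap R (AA p x y) x], r ∈ Ideal.ofList
          [algebraMap R (AA p x y) y, algebraMap R (AA p x y) x] := fun r hr =>
        Ideal.subset_span hr
      exact add_mem (Submodule.smul_mem_smul (h3 _ (by simp)) trivial)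
        (Submodule.smul_mem_smul (h3 _ (by simp)) trivial)

end ul

end Pool.Agent.L5helper65.HK
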